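import Pool.Agent.IsoV.Vec

/-!
# Sums over curves in the space of the parameters

`sm_curve`: a simple function summed over the solutions of a system of dimension at most one is
definable (a simple function is `∑ j, if R j (t, q) then c j else 0`; the numbers of the solutions
with `R j` are definable by `CvQ.chq_all CvQ.one r` for the relation of the system; the parameters
are the coefficients and the `q i`).
`iv_bundle`: `W' t' u = ∑ t, W t u`: define `W'` as the sum over the classes `l` of the `u` of the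
numbers `∑ t, W t (rp l g)` of `sm_curve` (`cv_sum`).
-/

set_option autoImplicit false

noncomputable section

namespace Pool.Agent.IsoV

open Finset Polynomial Pool.Agent.PRc Pool.Agent.Grz Pool.Agent.CvS Pool.Agent.IsoC

variable {n r k : ℕ}

/-- the relation of a system, with further parameters -/
private def XB (r d q₀ : ℕ) (l : Type) : FR (Fin r ⊕ ((Fin q₀ × (Fin r → Fin (d + 1))) ⊕ l)) :=
  fun _ _ x => ∀ i : Fin q₀, ∑ e : Fin r → Fin (d + 1), x (Sum.inr (Sum.inl (i, e))) *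
    ∏ i, x (Sum.inl i) ^ (e i : ℕ) = 0

private theorem xb_prd (r d q₀ : ℕ) (l : Type) : PRD (XB r d q₀ l) := by
  have h : PRD (fun (K : Type) [Field K]
      (x : Fin r ⊕ ((Fin q₀ × (Fin r → Fin (d + 1))) ⊕ l) → K) =>
      ∀ i ∈ (Finset.univ : Finset (Fin q₀)), ∑ e : Fin r → Fin (d + 1),
        x (Sum.inr (Sum.inl (i, e))) * ∏ i, x (Sum.inl i) ^ (e i : ℕ) = 0) := by
    refine PRD.all Finset.univ (P := fun (i : Fin q₀) (K : Type) [Field K]
      (x : Fin r ⊕ ((Fin q₀ × (Fin r → Fin (d + 1))) ⊕ l) → K) =>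
      ∑ e : Fin r → Fin (d + 1), x (Sum.inr (Sum.inl (i, e))) *
        ∏ i, x (Sum.inl i) ^ (e i : ℕ) = 0) fun i _ => ?_
    refine PRD.eq ?_ PRF.zero
    refine PRF.sum Finset.univ (F := fun (e : Fin r → Fin (d + 1)) (K : Type) [Field K]
      (x : Fin r ⊕ ((Fin q₀ × (Fin r → Fin (d + 1))) ⊕ l) → K) =>
      x (Sum.inr (Sum.inl (i, e))) * ∏ i, x (Sum.inl i) ^ (e i : ℕ)) fun e _ => ?_
    refine PRF.mul (PRF.var _) ?_
    exact PRF.prod Finset.univ (F := fun (i : Fin r) (K : Type) [Field K]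
      (x : Fin r ⊕ ((Fin q₀ × (Fin r → Fin (d + 1))) ⊕ l) → K) =>
      x (Sum.inl i) ^ (e i : ℕ)) fun i _ => (PRF.var _).pow _
  refine h.congr fun K _ x => ?_
  unfold XB
  simp only [Finset.mem_univ, forall_true_left]

/-- the relation of a simple function, with the coefficients as further parameters -/
private def TB (r d q₀ : ℕ) (l : Type) (R : FR (Fin r ⊕ l)) :
    FR (Fin r ⊕ ((Fin q₀ × (Fin r → Fin (d + 1))) ⊕ l)) :=
  fun K _ x => R K (Sum.elim (fun i => x (Sum.inl i)) fun i => x (Sum.inr (Sum.inr i)))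

private theorem tb_prq (r d q₀ : ℕ) (l : Type) {R : FR (Fin r ⊕ l)} (hR : PRQ R) :
    PRQ (TB r d q₀ l R) := by
  refine (hR.comp (G := Sum.elim
    (fun i K _ (x : Fin r ⊕ ((Fin q₀ × (Fin r → Fin (d + 1))) ⊕ l) → K) => x (Sum.inl i))
    (fun i K _ (x : Fin r ⊕ ((Fin q₀ × (Fin r → Fin (d + 1))) ⊕ l) → K) =>
      x (Sum.inr (Sum.inr i)))) ?_).congr fun K _ x => ?_
  · rintro (i | i)
    · exact PRF.var _
    · exact PRF.var _
  · refine iff_of_eq (congrArg (R K) ?_)
    funext i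
    rcases i with i | i <;> rfl

/-- numbers of points of curves with a first-order property -/
private theorem card_B {q₀ d : ℕ} {l : Type} [Finite l] {R : FR (Fin r ⊕ l)} (hR : PRQ R) :
    ∃ N : ℕ → (((Fin q₀ × (Fin r → Fin (d + 1))) ⊕ l) → ℕ) → ℕ, DC N ∧
      ∀ (p : ℕ) [Fact p.Prime] (c : Fin q₀ → (Fin r → Fin (d + 1)) → ℕ) (a : l → ℕ), Cv p c →
        N p (Sum.elim (fun i => c i.1 i.2) a) = Nat.card {t : Fin r → ZMod p //
          (∀ i, sval (c i) t = 0) ∧ R (ZMod p) (Sum.elim t fun i => (a i : ZMod p))} := by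
  obtain ⟨N, hN, h⟩ := CvQ.chq_all CvQ.one r (xb_prd r d q₀ l) (tb_prq r d q₀ l hR)
  refine ⟨N, hN, fun p _ c a hc => ?_⟩
  obtain ⟨_, hd⟩ := hc
  have h1 : ∀ (K : Type) [Field K],
      Pt (XB r d q₀ l) K (cst K (Sum.elim (fun i => c i.1 i.2) a)) = SZ K c :=
    fun K _ => rfl
  have h2 := h p (Sum.elim (fun i => c i.1 i.2) a) (by rw [h1]; exact hd)
  rw [h2]
  exact Nat.card_congr (Equiv.subtypeEquivRight fun w => Iff.rfl)

theorem sm_curve {q₀ d : ℕ} (P : Fin q₀ → (Fin r → Fin (d + 1)) → (Fin n → ℕ) → ℕ)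
    (hP : ∀ l e, DFun n (P l e)) {w : WF n (Fin r)} (hw : SM w) :
    ∃ f : ℕ → (Fin n → ℕ) → ℕ, DV f ∧ ∀ (p : ℕ) [Fact p.Prime] (v : Fin n → ℕ),
      Cv p (fun l e => P l e v) → f p v = ∑ t : Fin r → ZMod p,
        if ∀ l, sval (fun e => P l e v) t = 0 then w p v t else 0 := by
  classical
  obtain ⟨J, l, _, _, q, R, c, hq, hR, hc, h⟩ := hw
  choose N hN hN' using fun j => card_B (q₀ := q₀) (d := d) (hR j)
  refine ⟨fun p v => ∑ j, c j p v * N j p (fun i =>
    (Sum.elim (fun i _ v => P i.1 i.2 v) q : (Fin q₀ × (Fin r → Fin (d + 1))) ⊕ l → _) i p v),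
    ?_, fun p hp v hC => ?_⟩
  · refine DV.sum Finset.univ fun j => (hc j).mul (DV.dc (hN j) ?_)
    rintro (i | i)
    · exact DV.par (hP i.1 i.2)
    · exact hq i
  · have e0 : (fun i => (Sum.elim (fun i _ v => P i.1 i.2 v) q :
        (Fin q₀ × (Fin r → Fin (d + 1))) ⊕ l → ℕ → (Fin n → ℕ) → ℕ) i p v) =
        Sum.elim (fun i : Fin q₀ × (Fin r → Fin (d + 1)) => P i.1 i.2 v) (fun i => q i p v) := by
      funext i
      rcases i with i | i <;> rfl
    have e1 : ∀ j, N j p (fun i => (Sum.elim (fun i _ v => P i.1 i.2 v) q :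
        (Fin q₀ × (Fin r → Fin (d + 1))) ⊕ l → ℕ → (Fin n → ℕ) → ℕ) i p v) =
        #{t : Fin r → ZMod p | (∀ l, sval (fun e => P l e v) t = 0) ∧
          R j (ZMod p) (Sum.elim t fun i => (q i p v : ZMod p))} := by
      intro j
      rw [e0, hN' j p (fun l e => P l e v) (fun i => q i p v) hC, Nat.card_eq_fintype_card,
        Fintype.card_subtype]
    simp only [e1]
    have e2 : ∀ t : Fin r → ZMod p,
        (if ∀ l, sval (fun e => P l e v) t = 0 then w p v t else 0) =
        ∑ j, if (∀ l, sval (fun e => P l e v) t = 0) ∧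
          R j (ZMod p) (Sum.elim t fun i => (q i p v : ZMod p)) then c j p v else 0 := by
      intro t
      by_cases ht : ∀ l, sval (fun e => P l e v) t = 0
      · rw [if_pos ht, h p v t]
        exact Finset.sum_congr rfl fun j _ => if_congr (and_iff_right ht).symm rfl rfl
      · rw [if_neg ht]
        symm
        exact Finset.sum_eq_zero fun j _ => if_neg fun h3 => ht h3.1
    simp only [e2]
    rw [Finset.sum_comm]
    refine Finset.sum_congr rfl fun j _ => ?_
    rw [← Finset.sum_filter, Finset.sum_const, smul_eq_mul, mul_comm]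

theorem iv_bundle (r' : ℕ) {q₀ d : ℕ} (P : Fin q₀ → (Fin r → Fin (d + 1)) → (Fin n → ℕ) → ℕ)
    (hP : ∀ l e, DFun n (P l e)) {W : WV n r k} (h : IV W) :
    ∃ W' : WV n r' k, IV W' ∧ ∀ (p : ℕ) [Fact p.Prime] (v : Fin n → ℕ),
      Cv p (fun l e => P l e v) → ∀ (t' : Fin r' → ZMod p) (u : Fin k → ZMod p),
        W' p v t' u = ∑ t : Fin r → ZMod p,
          if ∀ l, sval (fun e => P l e v) t = 0 then W p v t u else 0 := by
  classical
  obtain ⟨N, hN, hC, hS⟩ := h
  obtain ⟨g, hg, hG⟩ := gen_def N hN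
  choose f hf hf' using fun l : Fin k → Fin (N + 1) =>
    sm_curve P hP (sv_rep hS l (DV.one hg) (fun i : Fin r => i))
  have hCV : ∀ (p : ℕ) [Fact p.Prime] (v : Fin n → ℕ) (_ : Fin r' → ZMod p),
      CV N (fun u : Fin k → ZMod p => ∑ l : Fin k → Fin (N + 1),
        if ∀ i, Cl N (l i) (ZMod p) ![u i, (g p : ZMod p)] then f l p v else 0) := by
    intro p _ v _ z ζ hζ
    beta_reduce
    refine Finset.sum_congr rfl fun l _ => if_congr ?_ rfl rfl
    exact forall_congr' fun i => cl_mul (l i) (hζ i)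
  refine ⟨fun p _ v _ u => ∑ l : Fin k → Fin (N + 1),
    if ∀ i, Cl N (l i) (ZMod p) ![u i, (g p : ZMod p)] then f l p v else 0,
    ⟨N, hN, hCV, ?_⟩, fun p _ v hv t' u => ?_⟩
  · refine sv_of_rep hN hCV hg hG fun l => ?_
    have h1 : ∀ l' : Fin k → Fin (N + 1), ∃ b : ℕ → (Fin n → ℕ) → ℕ, DV b ∧
        ∀ (p : ℕ) [Fact p.Prime] (v : Fin n → ℕ), b p v =
          if ∀ i, Cl N (l' i) (ZMod p) ![(rp (l i) (g p : ZMod p) : ZMod p), (g p : ZMod p)] then
            f l' p v else 0 := by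
      intro l'
      have h2 : PRQ (fun K _ (x : Unit → K) =>
          ∀ i, Cl N (l' i) K ![rp (l i) (x ()), x ()]) := by
        refine PRQ.allF (P := fun (i : Fin k) (K : Type) [Field K] (x : Unit → K) =>
          Cl N (l' i) K ![rp (l i) (x ()), x ()]) fun i => ?_
        refine ((cl_prq N (l' i)).comp (G := ![fun K _ (x : Unit → K) => rp (l i) (x ()),
          fun K _ (x : Unit → K) => x ()]) (fun j => ?_)).congr fun K _ x => ?_
        · fin_cases j
          · exact rp_prf (l i) (PRF.var _)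
          · exact PRF.var _
        · refine iff_of_eq (congrArg (Cl N (l' i) K) ?_)
          funext j
          fin_cases j <;> rfl
      refine ⟨_, DV.iteQ h2 (q := fun _ p _ => g p) (fun _ => DV.one hg) (hf l') (DV.const 0),
        fun p hp v => ?_⟩
      by_cases h3 : ∀ i, Cl N (l' i) (ZMod p)
          ![(rp (l i) (g p : ZMod p) : ZMod p), (g p : ZMod p)]
      · rw [if_pos h3]
        exact if_pos ⟨hp.out, h3⟩
      · rw [if_neg h3]
        exact if_neg fun ⟨_, h4⟩ => h3 h4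
    choose b hb hb' using h1
    refine (SM.const (DV.sum Finset.univ hb)).congr fun p _ v x => ?_
    exact Finset.sum_congr rfl fun l' _ => hb' l' p v
  · beta_reduce
    have h1 : ∀ l, f l p v = ∑ t : Fin r → ZMod p,
        if ∀ l, sval (fun e => P l e v) t = 0 then
          W p v t (fun i => rp (l i) (g p : ZMod p)) else 0 := fun l => hf' l p v hv
    obtain ⟨l, hl, hu⟩ : ∃ l : Fin k → Fin (N + 1), (∀ i, Cl N (l i) (ZMod p)
        ![u i, (g p : ZMod p)]) ∧ ∀ l' : Fin k → Fin (N + 1), (∀ i, Cl N (l' i) (ZMod p)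
        ![u i, (g p : ZMod p)]) → l' = l := by
      choose l hl hu using fun i => cl_ex hN (hG p) (u i)
      exact ⟨l, hl, fun l' h' => funext fun i => hu i (l' i) (h' i)⟩
    rw [Finset.sum_eq_single l, if_pos hl, h1 l]
    · refine Finset.sum_congr rfl fun t _ => ?_
      rw [cv_rep hN (hC p v t) hl]
    · intro l' _ h2
      exact if_neg fun h3 => h2 (hu l' h3)
    · intro h2
      exact absurd (Finset.mem_univ _) h2

end Pool.Agent.IsoV
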