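import Pool.Agent.IsoV.Defs

/-!
# Numbers of solutions modulo squarefree numbers

`cls_hom_S`, `cls_hom_E`: compatibility with ring homomorphisms; `cls_good`: the condition `G` is
a bounded formula; `crt`: the number of the solutions of a system of `q` equations in the unknowns
`x i`, `i : α`, modulo a squarefree number. Compare `IsoC/Crt.lean`.
-/

set_option autoImplicit false

noncomputable section

namespace Pool.Agent.IsoV

open Finset Polynomial Pool.Agent.PRc Pool.Agent.Grz Pool.Agent.CvS Pool.Agent.IsoC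

private theorem sval_hom {r d : ℕ} {R R' : Type} [CommRing R] [CommRing R'] (f : R →+* R')
    (c : (Fin r → Fin (d + 1)) → ℕ) (t : Fin r → R) :
    f (sval c t) = sval c fun i => f (t i) := by
  simp only [sval, map_sum, map_mul, map_prod, map_pow, map_natCast]

private theorem app_hom {a b : ℕ} {R R' : Type} (f : R → R') (u : Fin a → R) (w : Fin b → R)
    (u' : Fin a → R') (w' : Fin b → R') (hu : ∀ i, f (u i) = u' i) (hw : ∀ i, f (w i) = w' i)
    (i : Fin (a + b)) : f (Fin.append u w i) = Fin.append u' w' i := by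
  refine Fin.addCases (fun i => ?_) (fun i => ?_) i
  · rw [Fin.append_left, Fin.append_left, hu]
  · rw [Fin.append_right, Fin.append_right, hw]

private theorem cls_hom {n r : ℕ} {κ : Type} {q k : ℕ} {S : Sid n r κ q} {G : Gd n}
    {E : Fam n r κ k} (h : Cls n r κ q k S G E) (v : Fin n → ℕ) {R R' : Type} [CommRing R]
    [CommRing R'] (f : R →+* R') :
    (∀ (t : Fin r → R) (x : κ → R) (i : Fin q),
      f (S v R t x i) = S v R' (fun i => f (t i)) (fun i => f (x i)) i) ∧
    ∀ (t : Fin r → R) (x : κ → R) (i : Fin k),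
      f (E v R t x i) = E v R' (fun i => f (t i)) (fun i => f (x i)) i := by
  induction h with
  | var r => exact ⟨fun t x i => i.elim0, fun t x i => rfl⟩
  | quad r s d c hc =>
    refine ⟨fun t x i => i.elim0, fun t x i => ?_⟩
    simp only [map_sum, map_mul, sval_hom]
  | ren e h ih => exact ⟨fun t x i => ih.1 _ _ i, fun t x i => ih.2 _ _ i⟩
  | pair h h' ih ih' =>
    exact ⟨fun t x i => app_hom f _ _ _ _ (fun i => ih.1 _ _ i) (fun i => ih'.1 _ _ i) i,
      fun t x i => app_hom f _ _ _ _ (fun i => ih.2 _ _ i) (fun i => ih'.2 _ _ i) i⟩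
  | mono M hM a ha h ih =>
    refine ⟨ih.1, fun t x i => ?_⟩
    simp only [map_mul, map_prod, map_pow, sval_hom, ih.2]
  | form w₁ w₂ e h₁ h₂ he c hc h ih =>
    refine ⟨ih.1, fun t x i => ?_⟩
    refine Fin.cases ?_ (fun i => ?_) i
    · simp only [Fin.cons_zero, map_sum, apply_ite f, map_mul, map_pow, map_natCast, map_zero,
        ih.2]
    · simp only [Fin.cons_succ, ih.2]
  | root M a ha h ih =>
    refine ⟨fun t x i => app_hom f _ _ _ _ (fun i => ih.1 _ _ i) (fun i => ?_) i,
      fun t x i => rfl⟩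
    simp only [map_sub, map_mul, map_prod, map_pow, sval_hom, ih.2]
  | @cone r κ q k S G E Q h ih =>
    have hQ : ∀ (t : Fin r → R) (x : κ → R),
        f (Q v R t x 0) = Q v R' (fun i => f (t i)) (fun i => f (x i)) 0 := by
      intro t x
      have h1 := ih.2 t (Sum.elim (fun _ => 1) x) 0
      simp only [Fin.cons_zero, Sum.elim_inl, Sum.elim_inr, map_one, one_mul] at h1
      exact h1
    refine ⟨fun t x i => ?_, fun t x i => ?_⟩
    · refine Fin.lastCases ?_ (fun i => ?_) i
      · simp only [Fin.snoc_last]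
        exact hQ t x
      · simp only [Fin.snoc_castSucc]
        exact ih.1 t (Sum.elim (fun _ => 1) x) i
    · exact ih.2 t (Sum.elim (fun _ => 1) x) i.succ
  | bundle r' P hP h ih =>
    exact ⟨fun t x i => app_hom f _ _ _ _ (fun l => sval_hom f _ _) (fun i => ih.1 _ _ i) i,
      fun t x i => ih.2 _ _ i⟩

theorem cls_hom_S {n r : ℕ} {κ : Type} {q k : ℕ} {S : Sid n r κ q} {G : Gd n} {E : Fam n r κ k}
    (h : Cls n r κ q k S G E) (v : Fin n → ℕ) {R R' : Type} [CommRing R] [CommRing R']
    (f : R →+* R') (t : Fin r → R) (x : κ → R) (i : Fin q) :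
    f (S v R t x i) = S v R' (fun i => f (t i)) (fun i => f (x i)) i :=
  (cls_hom h v f).1 t x i

theorem cls_hom_E {n r : ℕ} {κ : Type} {q k : ℕ} {S : Sid n r κ q} {G : Gd n} {E : Fam n r κ k}
    (h : Cls n r κ q k S G E) (v : Fin n → ℕ) {R R' : Type} [CommRing R] [CommRing R']
    (f : R →+* R') (t : Fin r → R) (x : κ → R) (i : Fin k) :
    f (E v R t x i) = E v R' (fun i => f (t i)) (fun i => f (x i)) i :=
  (cls_hom h v f).2 t x i

theorem cls_finite {n r : ℕ} {κ : Type} {q k : ℕ} {S : Sid n r κ q} {G : Gd n} {E : Fam n r κ k}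
    (h : Cls n r κ q k S G E) : Finite κ := by
  induction h with
  | var r => infer_instance
  | quad r s d c hc => infer_instance
  | ren e h ih => exact Finite.of_equiv _ e
  | pair h h' ih ih' => infer_instance
  | mono M hM a ha h ih => exact ih
  | form w₁ w₂ e h₁ h₂ he c hc h ih => exact ih
  | root M a ha h ih => infer_instance
  | @cone r κ q k S G E Q h ih =>
    exact Finite.of_injective (Sum.inr : κ → Unit ⊕ κ) Sum.inr_injective
  | bundle r' P hP h ih => infer_instance

theorem cls_good {n r : ℕ} {κ : Type} {q k : ℕ} {S : Sid n r κ q} {G : Gd n} {E : Fam n r κ k}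
    (h : Cls n r κ q k S G E) : Delta0 (n + 1) (fun w => G (fun i => w i.succ) (w 0)) := by
  have ht : Delta0 (n + 1) (fun _ : Fin (n + 1) → ℕ => True) :=
    (Delta0.eqFun (DFun.const 0) (DFun.const 0)).of_iff fun _ => by simp
  induction h with
  | var r => exact ht
  | quad r s d c hc => exact ht
  | ren e h ih => exact ih
  | pair h h' ih ih' => exact ih.and ih'
  | mono M hM a ha h ih => exact ih
  | form w₁ w₂ e h₁ h₂ he c hc h ih => exact ih
  | root M a ha h ih => exact ih
  | cone h ih => exact ih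
  | bundle r' P hP h ih =>
    exact (CvH.cv_delta (DFun.proj 0) fun l e => (hP l e).weak).and ih

/-- numbers of solutions of a system -/
def Cn {α : Type} {q : ℕ} (Q : ∀ (R : Type) [CommRing R], (α → R) → Fin q → R) (m : ℕ) : ℕ :=
  Nat.card {x : α → ZMod m // ∀ i, Q (ZMod m) x i = 0}

private theorem cn_one {α : Type} {q : ℕ}
    (Q : ∀ (R : Type) [CommRing R], (α → R) → Fin q → R) : Cn Q 1 = 1 := by
  have hs : Subsingleton (ZMod 1) := inferInstanceAs (Subsingleton (Fin 1))
  rw [Cn, Nat.card_eq_one_iff_unique]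
  exact ⟨⟨fun a b => Subtype.ext (funext fun i => Subsingleton.elim _ _)⟩,
    ⟨⟨fun _ => 0, fun i => Subsingleton.elim _ _⟩⟩⟩

private theorem cn_mul {α : Type} {q : ℕ} (Q : ∀ (R : Type) [CommRing R], (α → R) → Fin q → R)
    (hQ : ∀ (R R' : Type) [CommRing R] [CommRing R'] (f : R →+* R') (x : α → R) (i : Fin q),
      f (Q R x i) = Q R' (fun i => f (x i)) i)
    {a b : ℕ} (h : Nat.Coprime a b) : Cn Q (a * b) = Cn Q a * Cn Q b := by
  rw [Cn, Cn, Cn, ← Nat.card_prod]
  let e : ZMod (a * b) ≃+* ZMod a × ZMod b := ZMod.chineseRemainder h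
  let p : ZMod (a * b) →+* ZMod a := (RingHom.fst _ _).comp e.toRingHom
  let r : ZMod (a * b) →+* ZMod b := (RingHom.snd _ _).comp e.toRingHom
  have hp : ∀ z, p z = (e z).1 := fun z => rfl
  have hr : ∀ z, r z = (e z).2 := fun z => rfl
  have key : ∀ (x : α → ZMod (a * b)) (i : Fin q),
      Q (ZMod (a * b)) x i = 0 ↔ Q (ZMod a) (fun i => (e (x i)).1) i = 0 ∧
        Q (ZMod b) (fun i => (e (x i)).2) i = 0 := by
    intro x i
    have h1 := hQ _ _ p x i
    have h2 := hQ _ _ r x i
    simp only [hp, hr] at h1 h2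
    rw [← h1, ← h2, ← map_eq_zero_iff e e.injective, Prod.ext_iff]
    rfl
  refine Nat.card_congr
    { toFun := fun z => (⟨fun i => (e (z.1 i)).1, fun j => ((key z.1 j).1 (z.2 j)).1⟩,
        ⟨fun i => (e (z.1 i)).2, fun j => ((key z.1 j).1 (z.2 j)).2⟩)
      invFun := fun w => ⟨fun i => e.symm (w.1.1 i, w.2.1 i), fun j => ?_⟩
      left_inv := fun z => ?_
      right_inv := fun w => ?_ }
  · rw [key]
    simp only [RingEquiv.apply_symm_apply]
    exact ⟨w.1.2 j, w.2.2 j⟩
  · apply Subtype.ext
    funext i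
    simp
  · apply Prod.ext
    · apply Subtype.ext
      funext i
      simp
    · apply Subtype.ext
      funext i
      simp

theorem crt {α : Type} [Finite α] {q : ℕ} (Q : ∀ (R : Type) [CommRing R], (α → R) → Fin q → R)
    (hQ : ∀ (R R' : Type) [CommRing R] [CommRing R'] (f : R →+* R') (x : α → R) (i : Fin q),
      f (Q R x i) = Q R' (fun i => f (x i)) i)
    {m : ℕ} (hm : Squarefree m) : Cn Q m = ∏ p ∈ m.primeFactors, Cn Q p := by
  induction m using Nat.strong_induction_on with
  | _ m ih =>
    have hm0 : m ≠ 0 := hm.ne_zero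
    rcases Nat.eq_or_lt_of_le (Nat.one_le_iff_ne_zero.2 hm0) with h | h
    · subst h
      rw [Nat.primeFactors_one, prod_empty, cn_one]
    · have hp : (m.minFac).Prime := Nat.minFac_prime h.ne'
      obtain ⟨l, hl⟩ := m.minFac_dvd
      have hco : Nat.Coprime m.minFac l := by
        rw [hl] at hm
        exact Nat.coprime_of_squarefree_mul hm
      have hlm : Squarefree l := by
        refine hm.squarefree_of_dvd ?_
        rw [hl]
        exact dvd_mul_left _ _
      have hlt : l < m := by
        have hk0 : 0 < l := Nat.pos_of_ne_zero hlm.ne_zero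
        conv_rhs => rw [hl]
        have := hp.two_le
        nlinarith
      have e1 := cn_mul Q hQ hco
      rw [← hl] at e1
      rw [e1, ih l hlt hlm]
      conv_rhs => rw [hl]
      rw [hco.primeFactors_mul, prod_union hco.disjoint_primeFactors, hp.primeFactors,
        prod_singleton]

end Pool.Agent.IsoV
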