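import Pool.Agent.IsoC.DelsI
import Pool.Agent.IsoC.Form
import Pool.Agent.CvH.Tot

/-!
# Point counts in higher dimension: maps with several components (definitions)

* `Fam n r κ k`: families of maps with `k` components in the parameters `t i`, `i : Fin r`, and
  the unknowns `x i`, `i : κ`; `Sid n r κ q`: side equations; `Gd n`: conditions on `v` and the
  prime `p`;
* `Cls`: the class; `sval (c · v) t` is the polynomial with the coefficients `c e v` at `t`;
* `WV`: functions of `p`, `v`, `t`, `u`; `CV N Ψ`: constant on the classes modulo `N`-th powers in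
  every coordinate; `IV W`: constant on classes, and simple as a function of `t`, `u`; `Ind`: the
  statement proved by induction.
-/

set_option autoImplicit false

noncomputable section

namespace Pool.Agent.IsoV

open Finset Polynomial Pool.Agent.PRc Pool.Agent.Grz Pool.Agent.CvS Pool.Agent.IsoC

/-- families of maps with `k` components, parameters `t`, unknowns `x` -/
abbrev Fam (n r : ℕ) (κ : Type) (k : ℕ) : Type 1 :=
  (Fin n → ℕ) → ∀ (R : Type) [CommRing R], (Fin r → R) → (κ → R) → Fin k → R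

/-- side equations -/
abbrev Sid (n r : ℕ) (κ : Type) (q : ℕ) : Type 1 :=
  (Fin n → ℕ) → ∀ (R : Type) [CommRing R], (Fin r → R) → (κ → R) → Fin q → R

/-- conditions on `v` and the prime -/
abbrev Gd (n : ℕ) : Type := (Fin n → ℕ) → ℕ → Prop

/-- The class of the polynomial maps `E(t; x)` on the solutions of `S(t; x) = 0`. -/
inductive Cls (n : ℕ) : (r : ℕ) → (κ : Type) → (q k : ℕ) → Sid n r κ q → Gd n → Fam n r κ k → Prop
  | var (r : ℕ) : Cls n r Unit 0 1 (fun _ _ _ _ _ i => i.elim0) (fun _ _ => True)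
      (fun _ _ _ _ x _ => x ())
  | quad (r s d : ℕ) (c : Fin s → Fin s → (Fin r → Fin (d + 1)) → (Fin n → ℕ) → ℕ)
      (hc : ∀ i j e, DFun n (c i j e)) :
      Cls n r (Fin s) 0 1 (fun _ _ _ _ _ i => i.elim0) (fun _ _ => True)
        (fun v _ _ t x _ => ∑ i, ∑ j, sval (fun e => c i j e v) t * x i * x j)
  | ren {r : ℕ} {κ κ' : Type} {q k : ℕ} {S : Sid n r κ q} {G : Gd n} {E : Fam n r κ k}
      (e : κ ≃ κ') :
      Cls n r κ q k S G E →
      Cls n r κ' q k (fun v R _ t x => S v R t fun i => x (e i)) G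
        (fun v R _ t x => E v R t fun i => x (e i))
  | pair {r : ℕ} {κ κ' : Type} {q q' k k' : ℕ} {S : Sid n r κ q} {S' : Sid n r κ' q'}
      {G G' : Gd n} {E : Fam n r κ k} {E' : Fam n r κ' k'} :
      Cls n r κ q k S G E → Cls n r κ' q' k' S' G' E' →
      Cls n r (κ ⊕ κ') (q + q') (k + k')
        (fun v R _ t x => Fin.append (S v R t fun i => x (Sum.inl i))
          (S' v R t fun i => x (Sum.inr i)))
        (fun v p => G v p ∧ G' v p)
        (fun v R _ t x => Fin.append (E v R t fun i => x (Sum.inl i))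
          (E' v R t fun i => x (Sum.inr i)))
  | mono {r : ℕ} {κ : Type} {q k k' d : ℕ} {S : Sid n r κ q} {G : Gd n} {E : Fam n r κ k}
      (M : Fin k' → Fin k → ℕ) (hM : LinearIndependent ℚ (fun i j => (M i j : ℚ)))
      (a : Fin k' → (Fin r → Fin (d + 1)) → (Fin n → ℕ) → ℕ) (ha : ∀ i e, DFun n (a i e)) :
      Cls n r κ q k S G E →
      Cls n r κ q k' S G
        (fun v R _ t x i => sval (fun e => a i e v) t * ∏ j, E v R t x j ^ M i j)
  | form {r : ℕ} {κ : Type} {q k : ℕ} {S : Sid n r κ q} {G : Gd n} {E : Fam n r κ (k + 2)}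
      (w₁ w₂ e : ℕ) (h₁ : 0 < w₁) (h₂ : 0 < w₂) (he : 0 < e)
      (c : Fin (e + 1) → Fin (e + 1) → (Fin n → ℕ) → ℕ) (hc : ∀ i j, DFun n (c i j)) :
      Cls n r κ q (k + 2) S G E →
      Cls n r κ q (k + 1) S G (fun v R _ t x => Fin.cons
        (∑ i : Fin (e + 1), ∑ j : Fin (e + 1), if w₁ * i + w₂ * j = e then
          (c i j v : R) * E v R t x 0 ^ (i : ℕ) * E v R t x 1 ^ (j : ℕ) else 0)
        (fun i : Fin k => E v R t x i.succ.succ))
  | root {r : ℕ} {κ : Type} {q k l d : ℕ} {S : Sid n r κ q} {G : Gd n} {E : Fam n r κ k}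
      (M : Fin k → Fin l → ℕ)
      (a : Fin k → (Fin r → Fin (d + 1)) → (Fin n → ℕ) → ℕ) (ha : ∀ i e, DFun n (a i e)) :
      Cls n r κ q k S G E →
      Cls n r (Fin l ⊕ κ) (q + k) l
        (fun v R _ t x => Fin.append (S v R t fun i => x (Sum.inr i)) fun i =>
          E v R t (fun i => x (Sum.inr i)) i -
            sval (fun e => a i e v) t * ∏ j, x (Sum.inl j) ^ M i j)
        G (fun _ _ _ _ x j => x (Sum.inl j))
  | cone {r : ℕ} {κ : Type} {q k : ℕ} {S : Sid n r κ q} {G : Gd n} {E : Fam n r κ k}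
      {Q : Fam n r κ 1} :
      Cls n r (Unit ⊕ κ) q (k + 1) (fun v R _ t x => S v R t fun i => x (Sum.inr i)) G
        (fun v R _ t x => Fin.cons (x (Sum.inl ()) * Q v R t (fun i => x (Sum.inr i)) 0)
          (E v R t fun i => x (Sum.inr i))) →
      Cls n r κ (q + 1) k (fun v R _ t x => Fin.snoc (S v R t x) (Q v R t x 0)) G E
  | bundle {r : ℕ} {κ : Type} {q k : ℕ} {S : Sid n r κ q} {G : Gd n} {E : Fam n r κ k} (r' : ℕ)
      {q₀ d : ℕ} (P : Fin q₀ → (Fin r → Fin (d + 1)) → (Fin n → ℕ) → ℕ)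
      (hP : ∀ l e, DFun n (P l e)) :
      Cls n r κ q k S G E →
      Cls n r' (Fin r ⊕ κ) (q₀ + q) k
        (fun v R _ _ x => Fin.append (fun l => sval (fun e => P l e v) fun i => x (Sum.inl i))
          (S v R (fun i => x (Sum.inl i)) fun i => x (Sum.inr i)))
        (fun v p => Cv p (fun l e => P l e v) ∧ G v p)
        (fun v R _ _ x => E v R (fun i => x (Sum.inl i)) fun i => x (Sum.inr i))

/-- functions of `p`, `v`, `t`, `u` -/
abbrev WV (n r k : ℕ) : Type :=
  ∀ (p : ℕ) [Fact p.Prime], (Fin n → ℕ) → (Fin r → ZMod p) → (Fin k → ZMod p) → ℕ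

/-- constant on the classes modulo `N`-th powers in every coordinate -/
def CV {K : Type} [Field K] {k : ℕ} (N : ℕ) (Ψ : (Fin k → K) → ℕ) : Prop :=
  ∀ z ζ : Fin k → K, (∀ i, ζ i ≠ 0) → Ψ (fun i => z i * ζ i ^ N) = Ψ z

/-- the statement for functions -/
def IV {n r k : ℕ} (W : WV n r k) : Prop :=
  ∃ N : ℕ, 0 < N ∧ (∀ (p : ℕ) [Fact p.Prime] (v : Fin n → ℕ) (t : Fin r → ZMod p),
    CV N (W p v t)) ∧ SM (κ := Fin r ⊕ Fin k)
      (fun p _ v x => W p v (fun i => x (Sum.inl i)) (fun i => x (Sum.inr i)))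

/-- the number of the solutions of `S(t; x) = 0`, `E(t; x) = u` -/
def Wn {n r : ℕ} {κ : Type} {q k : ℕ} (S : Sid n r κ q) (E : Fam n r κ k) (p : ℕ) [Fact p.Prime]
    (v : Fin n → ℕ) (t : Fin r → ZMod p) (u : Fin k → ZMod p) : ℕ :=
  Nat.card {x : κ → ZMod p // (∀ i, S v (ZMod p) t x i = 0) ∧ ∀ i, E v (ZMod p) t x i = u i}

/-- the statement proved by induction -/
def Ind {n r : ℕ} {κ : Type} {q k : ℕ} (S : Sid n r κ q) (G : Gd n) (E : Fam n r κ k) : Prop :=
  ∃ W : WV n r k, IV W ∧ ∀ (p : ℕ) [Fact p.Prime] (v : Fin n → ℕ), G v p →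
    ∀ t u, Wn S E p v t u = W p v t u

end Pool.Agent.IsoV
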