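import Pool.Agent.IsoV.Vec
import Pool.Agent.IsoC.Bin

/-!
# Quasi-homogeneous polynomials of the first two components

`iv_form`: sums over the `u` with `F(u 0, u 1) = u' 0`, `u (i + 2) = u' (i + 1)`. Proof: `iv_op`
with `N' = N * e`, `η 0 = ζ 0 ^ w₁`, `η 1 = ζ 0 ^ w₂`, `η (i + 2) = ζ (i + 1) ^ e`. The number on
the classes is `1` or `0` for the components `i + 2` (first-order condition `Cl N (l (i + 2)) (rp
(l' (i + 1)) g', g)`, `DV.iteQ`) times the number of the pairs `(s, s')` in the classes `l 0`, `l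
1` with `F(s, s') = rp (l' 0) g'`: `IsoC.bin_def`.
-/

set_option autoImplicit false

noncomputable section

namespace Pool.Agent.IsoV

open Finset Polynomial Pool.Agent.PRc Pool.Agent.Grz Pool.Agent.CvS Pool.Agent.IsoC

variable {n r k : ℕ}

private theorem qh_F {K : Type} [Field K] (w₁ w₂ e N : ℕ) (c : Fin (e + 1) → Fin (e + 1) → K)
    (a b y : K) :
    (∑ i : Fin (e + 1), ∑ j : Fin (e + 1), if w₁ * i + w₂ * j = e then
      c i j * (a * (y ^ w₁) ^ N) ^ (i : ℕ) * (b * (y ^ w₂) ^ N) ^ (j : ℕ) else 0) =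
    (∑ i : Fin (e + 1), ∑ j : Fin (e + 1), if w₁ * i + w₂ * j = e then
      c i j * a ^ (i : ℕ) * b ^ (j : ℕ) else 0) * y ^ (N * e) := by
  rw [Finset.sum_mul]
  refine Finset.sum_congr rfl fun i _ => ?_
  rw [Finset.sum_mul]
  refine Finset.sum_congr rfl fun j _ => ?_
  split_ifs with h4
  · have h6 : N * e = w₁ * (N * i) + w₂ * (N * j) := by
      calc N * e = N * (w₁ * i + w₂ * j) := by rw [h4]
        _ = w₁ * (N * i) + w₂ * (N * j) := by ring
    have h5 : y ^ (N * e) = ((y ^ w₁) ^ N) ^ (i : ℕ) * ((y ^ w₂) ^ N) ^ (j : ℕ) := by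
      rw [← pow_mul, ← pow_mul, ← pow_mul, ← pow_mul, ← pow_add, h6]
    rw [h5, mul_pow, mul_pow]
    ring
  · rw [zero_mul]

open scoped Classical in
private theorem card_F {K : Type} [Finite K] {k : ℕ} (P : K → K → Prop)
    (ρ : Fin k → K) (Q : Fin (k + 2) → K → Prop) :
    Nat.card {u : Fin (k + 2) → K // (P (u 0) (u 1) ∧ ∀ i : Fin k, u i.succ.succ = ρ i) ∧
      ∀ j, Q j (u j)} = if ∀ i : Fin k, Q i.succ.succ (ρ i) then
        Nat.card {z : Fin 2 → K // P (z 0) (z 1) ∧ (Q 0 (z 0) ∧ Q 1 (z 1))} else 0 := by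
  by_cases h : ∀ i : Fin k, Q i.succ.succ (ρ i)
  · rw [if_pos h]
    refine Nat.card_congr
      { toFun := fun u => ⟨![u.1 0, u.1 1], u.2.1.1, u.2.2 0, u.2.2 1⟩
        invFun := fun z => ⟨Fin.cons (z.1 0) (Fin.cons (z.1 1) ρ), ⟨z.2.1, fun i => rfl⟩, ?_⟩
        left_inv := ?_
        right_inv := ?_ }
    · intro j
      refine Fin.cases z.2.2.1 (fun j => Fin.cases z.2.2.2 (fun j => ?_) j) j
      exact h j
    · rintro ⟨u, ⟨hu, hu'⟩, hu''⟩
      apply Subtype.ext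
      funext j
      refine Fin.cases rfl (fun j => Fin.cases rfl (fun j => ?_) j) j
      exact (hu' j).symm
    · rintro ⟨z, hz⟩
      apply Subtype.ext
      funext j
      fin_cases j <;> rfl
  · rw [if_neg h]
    have : IsEmpty {u : Fin (k + 2) → K // (P (u 0) (u 1) ∧ ∀ i : Fin k, u i.succ.succ = ρ i) ∧
        ∀ j, Q j (u j)} := by
      refine ⟨fun u => h fun i => ?_⟩
      rw [← u.2.1.2 i]
      exact u.2.2 _
    exact Nat.card_of_isEmpty

/-- the components `i + 2` -/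
private theorem cls_F {N N' : ℕ} (l : Fin k → Fin (N + 1)) (l' : Fin k → Fin (N' + 1)) :
    PRQ (fun K _ (x : Fin 2 → K) => ∀ i, Cl N (l i) K ![rp (l' i) (x 1), x 0]) := by
  refine PRQ.allF (P := fun (i : Fin k) (K : Type) [Field K] (x : Fin 2 → K) =>
    Cl N (l i) K ![rp (l' i) (x 1), x 0]) fun i => ?_
  refine ((cl_prq N (l i)).comp (G := ![fun K _ (x : Fin 2 → K) => rp (l' i) (x 1),
    fun K _ (x : Fin 2 → K) => x 0]) (fun j => ?_)).congr fun K _ x => ?_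
  · fin_cases j
    · exact rp_prf (l' i) (PRF.var _)
    · exact PRF.var _
  · refine iff_of_eq (congrArg (Cl N (l i) K) ?_)
    funext j
    fin_cases j <;> rfl

theorem iv_form (w₁ w₂ e : ℕ) (h₁ : 0 < w₁) (h₂ : 0 < w₂) (he : 0 < e)
    (c : Fin (e + 1) → Fin (e + 1) → (Fin n → ℕ) → ℕ) (hc : ∀ i j, DFun n (c i j))
    {W : WV n r (k + 2)} (h : IV W) :
    IV (n := n) (r := r) (k := k + 1) (fun p _ v t u' => ∑ u : Fin (k + 2) → ZMod p,
      if (∑ i : Fin (e + 1), ∑ j : Fin (e + 1), if w₁ * i + w₂ * j = e then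
        (c i j v : ZMod p) * u 0 ^ (i : ℕ) * u 1 ^ (j : ℕ) else 0) = u' 0 ∧
          ∀ i : Fin k, u i.succ.succ = u' i.succ then W p v t u else 0) := by
  classical
  have h0 := iv_op (k' := k + 1) h (fun p _ v u' u => (∑ i : Fin (e + 1), ∑ j : Fin (e + 1),
    if w₁ * i + w₂ * j = e then (c i j v : ZMod p) * u 0 ^ (i : ℕ) * u 1 ^ (j : ℕ) else 0) =
      u' 0 ∧ ∀ i : Fin k, u i.succ.succ = u' i.succ) ?_
  · refine h0.congr fun p _ v t u' => Finset.sum_congr rfl fun u _ => ?_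
    congr
  intro N hN
  refine ⟨N * e, Nat.mul_pos hN he, fun p _ v ζ hζ => ?_, fun g g' hg hg' hG hG' l l' => ?_⟩
  · refine ⟨Fin.cons (ζ 0 ^ w₁) (Fin.cons (ζ 0 ^ w₂) fun i => ζ i.succ ^ e), ?_, fun u' u => ?_⟩
    · intro j
      refine Fin.cases ?_ (fun j => Fin.cases ?_ (fun j => ?_) j) j
      · exact pow_ne_zero _ (hζ 0)
      · exact pow_ne_zero _ (hζ 0)
      · exact pow_ne_zero _ (hζ j.succ)
    · refine and_congr ?_ (forall_congr' fun i => ?_)
      · have h3 := qh_F w₁ w₂ e N (fun i j => (c i j v : ZMod p)) (u 0) (u 1) (ζ 0)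
        have h4 : (∑ i : Fin (e + 1), ∑ j : Fin (e + 1), if w₁ * i + w₂ * j = e then
            (c i j v : ZMod p) * (u 0 * (ζ 0 ^ w₁) ^ N) ^ (i : ℕ) *
              (u 1 * (ζ 0 ^ w₂) ^ N) ^ (j : ℕ) else 0) = u' 0 * ζ 0 ^ (N * e) ↔
            (∑ i : Fin (e + 1), ∑ j : Fin (e + 1), if w₁ * i + w₂ * j = e then
              (c i j v : ZMod p) * u 0 ^ (i : ℕ) * u 1 ^ (j : ℕ) else 0) = u' 0 := by
          rw [h3]
          exact mul_left_inj' (pow_ne_zero _ (hζ 0))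
        exact h4
      · change u i.succ.succ * (ζ i.succ ^ e) ^ N = u' i.succ * ζ i.succ ^ (N * e) ↔ _
        rw [← pow_mul, mul_comm e N]
        exact mul_left_inj' (pow_ne_zero _ (hζ i.succ))
  · obtain ⟨f, hf, hf'⟩ := bin_def (n := n) (l 0) (l 1) w₁ w₂ e he c hc
      (rp_dv (l' 0) (DV.one hg')) (DV.one hg)
    have hq : ∀ i : Fin 2, DV (n := n) ((![fun p _ => g p, fun p _ => g' p] :
        Fin 2 → ℕ → (Fin n → ℕ) → ℕ) i) := by
      intro i
      fin_cases i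
      · exact DV.one hg
      · exact DV.one hg'
    refine ⟨_, DV.iteQ (cls_F (fun i : Fin k => l i.succ.succ) fun i : Fin k => l' i.succ) hq hf
      (DV.const 0), fun p _ v => ?_⟩
    have hp : p.Prime := Fact.out
    have h5 := card_F (K := ZMod p) (k := k) (fun a b => (∑ i : Fin (e + 1), ∑ j : Fin (e + 1),
      if w₁ * i + w₂ * j = e then (c i j v : ZMod p) * a ^ (i : ℕ) * b ^ (j : ℕ) else 0) =
        rp (l' 0) (g' p : ZMod p)) (fun i => rp (l' i.succ) (g' p : ZMod p))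
        fun j s => Cl N (l j) (ZMod p) ![s, (g p : ZMod p)]
    refine Eq.trans ?_ h5.symm
    by_cases h6 : ∀ i : Fin k, Cl N (l i.succ.succ) (ZMod p)
        ![rp (l' i.succ) (g' p : ZMod p), (g p : ZMod p)]
    · rw [if_pos h6, if_pos ⟨hp, h6⟩, hf', rp_cast]
    · rw [if_neg h6, if_neg]
      rintro ⟨_, h7⟩
      exact h6 h7

end Pool.Agent.IsoV
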