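import Pool.Agent.IsoV.Vec
import Pool.Agent.IsoC.Quad

/-!
# Quadratic forms with coefficients polynomials in the parameters

`iv_quad`: from `IsoC.quad_sm` (the number of the solutions of `∑ a i j * y i * y j = u` is a
simple function of all `a i j` and `u`) by substitution of the polynomials `sval (c i j) t`.
-/

set_option autoImplicit false

noncomputable section

namespace Pool.Agent.IsoV

open Finset Polynomial Pool.Agent.PRc Pool.Agent.Grz Pool.Agent.CvS Pool.Agent.IsoC

/-- polynomials with variable coefficients are piecewise rational functions -/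
theorem sval_prf {r d : ℕ} {ι : Type} {T : Fin r → FF ι} (hT : ∀ i, PRF (T i))
    {A : (Fin r → Fin (d + 1)) → FF ι} (hA : ∀ e, PRF (A e)) :
    PRF (fun K _ x => ∑ e : Fin r → Fin (d + 1), A e K x * ∏ i, T i K x ^ (e i : ℕ)) :=
  PRF.sum Finset.univ (F := fun (e : Fin r → Fin (d + 1)) K _ (x : ι → K) =>
    A e K x * ∏ i, T i K x ^ (e i : ℕ)) fun e _ =>
      (hA e).mul (PRF.prod Finset.univ (F := fun (i : Fin r) K _ (x : ι → K) =>
        T i K x ^ (e i : ℕ)) fun i _ => (hT i).pow _)

theorem iv_quad {n : ℕ} (r s d : ℕ) (c : Fin s → Fin s → (Fin r → Fin (d + 1)) → (Fin n → ℕ) → ℕ)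
    (hc : ∀ i j e, DFun n (c i j e)) :
    IV (n := n) (r := r) (k := 1) (fun p _ v t u => Nat.card {x : Fin s → ZMod p //
      ∑ i, ∑ j, sval (fun e => c i j e v) t * x i * x j = u 0}) := by
  classical
  refine ⟨2, two_pos, fun p _ v t u y hy => ?_, ?_⟩
  · symm
    refine Nat.card_congr (Equiv.subtypeEquiv (Equiv.piCongrRight fun i : Fin s =>
      Equiv.mulRight₀ (y 0) (hy 0)) fun x => ?_)
    have h3 : ∑ i, ∑ j, sval (fun e => c i j e v) t * (x i * y 0) * (x j * y 0) =
        (∑ i, ∑ j, sval (fun e => c i j e v) t * x i * x j) * y 0 ^ 2 := by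
      rw [Finset.sum_mul]
      refine Finset.sum_congr rfl fun i _ => ?_
      rw [Finset.sum_mul]
      refine Finset.sum_congr rfl fun j _ => ?_
      ring
    change _ ↔ ∑ i, ∑ j, sval (fun e => c i j e v) t * (x i * y 0) * (x j * y 0) = u 0 * y 0 ^ 2
    rw [h3]
    exact (mul_left_inj' (pow_ne_zero 2 (hy 0))).symm
  · exact (quad_sm n s).comp (κ' := Fin r ⊕ Fin 1) (l := Fin s × Fin s × (Fin r → Fin (d + 1)))
      (q := fun ije _ v => c ije.1 ije.2.1 ije.2.2 v)
      (G := Sum.elim (fun ij K _ x => ∑ e : Fin r → Fin (d + 1),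
          x (Sum.inr (ij.1, ij.2, e)) * ∏ i, x (Sum.inl (Sum.inl i)) ^ (e i : ℕ))
        (fun _ K _ x => x (Sum.inl (Sum.inr 0)))) (fun j => by
          rcases j with j | j
          · exact sval_prf (fun i => PRF.var (Sum.inl (Sum.inl i)))
              (A := fun e K _ x => x (Sum.inr (j.1, j.2, e))) fun e => PRF.var _
          · exact PRF.var _) fun i => DV.par (hc _ _ _)

end Pool.Agent.IsoV
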