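import Pool.Agent.IsoV.Vec

/-!
# Unknowns, pairs, multiplication of the components by polynomials in the parameters, roots, cones
-/

set_option autoImplicit false

noncomputable section

namespace Pool.Agent.IsoV

open Finset Polynomial Pool.Agent.PRc Pool.Agent.Grz Pool.Agent.CvS Pool.Agent.IsoC

variable {n r k k' l : ℕ}

/-- polynomials in the parameters as functions of the parameters and the coefficients -/
theorem svp_prf {r d : ℕ} {ι : Type} (t : Fin r → ι) (c : (Fin r → Fin (d + 1)) → ι) :
    PRF (fun K _ (x : ι → K) => ∑ e : Fin r → Fin (d + 1), x (c e) * ∏ i, x (t i) ^ (e i : ℕ)) :=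
  PRF.sum Finset.univ (F := fun (e : Fin r → Fin (d + 1)) (K : Type) [Field K] (x : ι → K) =>
    x (c e) * ∏ i, x (t i) ^ (e i : ℕ)) fun e _ => PRF.mul (PRF.var _)
      (PRF.prod Finset.univ (F := fun (i : Fin r) (K : Type) [Field K] (x : ι → K) =>
        x (t i) ^ (e i : ℕ)) fun i _ => (PRF.var _).pow _)

/-- definable functions of simple functions -/
theorem sm_map2 {κ : Type} {F : ℕ → ℕ → ℕ → ℕ} (hF : DFun 3 (fun w => F (w 0) (w 1) (w 2)))
    {w w' : WF n κ} (hw : SM w) (hw' : SM w') :
    SM (κ := κ) (fun p _ v x => F p (w p v x) (w' p v x)) := by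
  classical
  obtain ⟨J, l, _, _, q, R, c, hq, hR, hc, h⟩ := hw
  obtain ⟨J', l', _, _, q', R', c', hq', hR', hc', h'⟩ := hw'
  have hA : ∀ A : Finset J, PRQ (fun K _ (x : κ ⊕ l → K) => ∀ j, R j K x ↔ j ∈ A) := by
    intro A
    refine PRQ.allF (P := fun (j : J) (K : Type) [Field K] (x : κ ⊕ l → K) => R j K x ↔ j ∈ A)
      fun j => ?_
    by_cases hj : j ∈ A
    · exact (hR j).congr fun K _ x => by simp [hj]
    · exact (hR j).not.congr fun K _ x => by simp [hj]
  have hB : ∀ A : Finset J', PRQ (fun K _ (x : κ ⊕ l' → K) => ∀ j, R' j K x ↔ j ∈ A) := by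
    intro A
    refine PRQ.allF (P := fun (j : J') (K : Type) [Field K] (x : κ ⊕ l' → K) => R' j K x ↔ j ∈ A)
      fun j => ?_
    by_cases hj : j ∈ A
    · exact (hR' j).congr fun K _ x => by simp [hj]
    · exact (hR' j).not.congr fun K _ x => by simp [hj]
  have hc2 : ∀ (A : Finset J) (B : Finset J'), DV (fun p v => F p (∑ j ∈ A, c j p v)
      (∑ j ∈ B, c' j p v)) := by
    intro A B
    refine hF.comp (h := ![fun w : Fin (n + 1) → ℕ => w 0,
      fun w => ∑ j ∈ A, c j (w 0) fun i => w i.succ,
      fun w => ∑ j ∈ B, c' j (w 0) fun i => w i.succ]) fun i => ?_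
    fin_cases i
    · exact DFun.proj 0
    · exact DV.sum A hc
    · exact DV.sum B hc'
  refine (SM.sum Finset.univ fun A : Finset J => SM.sum Finset.univ fun B : Finset J' =>
    ((SM.ind (hA A) hq).mul (SM.ind (hB B) hq')).mul (SM.const (hc2 A B))).congr
      fun p _ v x => ?_
  have e1 : w p v x = ∑ j ∈ Finset.univ.filter (fun j => R j (ZMod p)
      (Sum.elim x fun i => (q i p v : ZMod p))), c j p v := by
    rw [h p v x, Finset.sum_filter]
  have e2 : w' p v x = ∑ j ∈ Finset.univ.filter (fun j => R' j (ZMod p)
      (Sum.elim x fun i => (q' i p v : ZMod p))), c' j p v := by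
    rw [h' p v x, Finset.sum_filter]
  rw [Finset.sum_eq_single (Finset.univ.filter (fun j => R j (ZMod p)
      (Sum.elim x fun i => (q i p v : ZMod p)))), Finset.sum_eq_single
      (Finset.univ.filter (fun j => R' j (ZMod p) (Sum.elim x fun i => (q' i p v : ZMod p))))]
  · rw [if_pos, if_pos, one_mul, one_mul, e1, e2]
    · intro j
      simp
    · intro j
      simp
  · intro B _ hB'
    have h4 : ¬ ∀ j, R' j (ZMod p) (Sum.elim x fun i => (q' i p v : ZMod p)) ↔ j ∈ B := by
      intro h3
      refine hB' ?_
      ext j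
      simpa using (h3 j).symm
    rw [if_neg h4, mul_zero, zero_mul]
  · intro h3
    exact absurd (Finset.mem_univ _) h3
  · intro A _ hA'
    have h4 : ¬ ∀ j, R j (ZMod p) (Sum.elim x fun i => (q i p v : ZMod p)) ↔ j ∈ A := by
      intro h3
      refine hA' ?_
      ext j
      simpa using (h3 j).symm
    refine Finset.sum_eq_zero fun B _ => ?_
    rw [if_neg h4, zero_mul, zero_mul]
  · intro h3
    exact absurd (Finset.mem_univ _) h3

theorem iv_pair {W : WV n r k} {W' : WV n r k'} (h : IV W) (h' : IV W') :
    IV (n := n) (r := r) (k := k + k') (fun p _ v t u =>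
      W p v t (fun i => u (Fin.castAdd k' i)) * W' p v t (fun i => u (Fin.natAdd k i))) := by
  obtain ⟨N, hN, hC, hS⟩ := h
  obtain ⟨N', hN', hC', hS'⟩ := h'
  refine ⟨N * N', Nat.mul_pos hN hN', fun p _ v t z ζ hζ => ?_, ?_⟩
  · beta_reduce
    rw [(hC p v t).mono (Dvd.intro _ rfl) (fun i => z (Fin.castAdd k' i))
      (fun i => ζ (Fin.castAdd k' i)) fun i => hζ _, (hC' p v t).mono (Dvd.intro_left _ rfl)
        (fun i => z (Fin.natAdd k i)) (fun i => ζ (Fin.natAdd k i)) fun i => hζ _]
  · exact SM.mul (hS.comp (κ' := Fin r ⊕ Fin (k + k')) (l := Empty) (q := fun i => i.elim)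
      (G := Sum.elim (fun i K _ x => x (Sum.inl (Sum.inl i)))
        fun i K _ x => x (Sum.inl (Sum.inr (Fin.castAdd k' i)))) (fun j => by
          rcases j with j | j
          · exact PRF.var _
          · exact PRF.var _) fun i => i.elim)
      (hS'.comp (κ' := Fin r ⊕ Fin (k + k')) (l := Empty) (q := fun i => i.elim)
      (G := Sum.elim (fun i K _ x => x (Sum.inl (Sum.inl i)))
        fun i K _ x => x (Sum.inl (Sum.inr (Fin.natAdd k i)))) (fun j => by
          rcases j with j | j
          · exact PRF.var _
          · exact PRF.var _) fun i => i.elim)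

open scoped Classical in
/-- one coordinate multiplied by a polynomial in the parameters -/
theorem iv_scale1 {d : ℕ} (i : Fin k) (a : (Fin r → Fin (d + 1)) → (Fin n → ℕ) → ℕ)
    (ha : ∀ e, DFun n (a e)) {W : WV n r k} (h : IV W) :
    IV (n := n) (r := r) (k := k) (fun p _ v t u => ∑ s : ZMod p,
      if sval (fun e => a e v) t * s = u i then W p v t (Function.update u i s) else 0) := by
  obtain ⟨N, hN, hC, hS⟩ := h
  obtain ⟨g, hg, hG⟩ := gen_def N hN
  have hA : ∀ j : Fin (N + 1), ∃ f : ℕ → (Fin n → ℕ) → ℕ, DV f ∧ ∀ (p : ℕ) [Fact p.Prime]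
      (v : Fin n → ℕ), f p v = Nat.card {s : ZMod p // Cl N j (ZMod p) ![s, (g p : ZMod p)]} := by
    intro j
    obtain ⟨f, hf, h⟩ := one_dv (n := n) (cl_one (N := N) j (l := Unit) ())
      (q := fun _ p _ => g p) fun _ => DV.one hg
    exact ⟨f, hf, fun p _ v => h p v⟩
  choose A hA hA' using hA
  refine ⟨N, hN, fun p _ v t z ζ hζ => ?_, ?_⟩
  · beta_reduce
    rw [← Equiv.sum_comp (Equiv.mulRight₀ (ζ i ^ N) (pow_ne_zero N (hζ i)))]
    refine Finset.sum_congr rfl fun s _ => ?_
    have e1 : (Equiv.mulRight₀ (ζ i ^ N) (pow_ne_zero N (hζ i))) s = s * ζ i ^ N := rfl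
    have e2 : Function.update (fun j => z j * ζ j ^ N) i (s * ζ i ^ N) =
        fun j => Function.update z i s j * ζ j ^ N := by
      funext j
      by_cases hj : j = i
      · subst hj
        simp
      · simp [hj]
    rw [e1, e2, hC p v t _ _ hζ, ← mul_assoc]
    refine if_congr ?_ rfl rfl
    exact mul_left_inj' (pow_ne_zero N (hζ i))
  · have hP : PRQ (fun K _ (x : (Fin r ⊕ Fin k) ⊕ (Fin r → Fin (d + 1)) → K) =>
        (∑ e : Fin r → Fin (d + 1), x (Sum.inr e) *
          ∏ i', x (Sum.inl (Sum.inl i')) ^ (e i' : ℕ)) = 0) :=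
      PRQ.eq (svp_prf (fun i' => Sum.inl (Sum.inl i')) fun e => Sum.inr e) PRF.zero
    have hU : PRQ (fun K _ (x : (Fin r ⊕ Fin k) ⊕ Empty → K) =>
        x (Sum.inl (Sum.inr i)) = 0) := PRQ.eq (PRF.var _) PRF.zero
    have h1 : ∀ j : Fin (N + 1), SM (κ := Fin r ⊕ Fin k) (fun p _ v x =>
        W p v (fun i => x (Sum.inl i))
          (Function.update (fun i => x (Sum.inr i)) i (rp j (g p : ZMod p)))) := by
      intro j
      refine (hS.comp (κ' := Fin r ⊕ Fin k) (l := Unit) (q := fun _ p _ => g p)
        (G := Sum.elim (fun i K _ x => x (Sum.inl (Sum.inl i))) fun i' K _ x =>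
          if i' = i then rp j (x (Sum.inr ())) else x (Sum.inl (Sum.inr i')))
            (fun j' => ?_) fun _ => DV.one hg).congr fun p _ v x => ?_
      · rcases j' with j' | j'
        · exact PRF.var _
        · by_cases hj : j' = i
          · simp only [Sum.elim_inr, hj, if_true]
            exact rp_prf j (PRF.var _)
          · simp only [Sum.elim_inr, hj, if_false]
            exact PRF.var _
      · congr 1
        funext i'
        by_cases hj : i' = i
        · subst hj
          simp
        · simp [hj]
    have h2 : SM (κ := Fin r ⊕ Fin k) (fun p _ v x => W p v (fun i => x (Sum.inl i))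
        (Function.update (fun i => x (Sum.inr i)) i
          (x (Sum.inr i) / sval (fun e => a e v) (fun i => x (Sum.inl i))))) := by
      refine (hS.comp (κ' := Fin r ⊕ Fin k) (l := Fin r → Fin (d + 1)) (q := fun e _ v => a e v)
        (G := Sum.elim (fun i K _ x => x (Sum.inl (Sum.inl i))) fun i' K _ x =>
          if i' = i then x (Sum.inl (Sum.inr i)) / (∑ e : Fin r → Fin (d + 1), x (Sum.inr e) *
          ∏ i', x (Sum.inl (Sum.inl i')) ^ (e i' : ℕ)) else x (Sum.inl (Sum.inr i')))
            (fun j' => ?_) fun e => DV.par (ha e)).congr fun p _ v x => ?_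
      · rcases j' with j' | j'
        · exact PRF.var _
        · by_cases hj : j' = i
          · simp only [Sum.elim_inr, hj, if_true]
            exact (PRF.var _).div (svp_prf (fun i' => Sum.inl (Sum.inl i')) fun e => Sum.inr e)
          · simp only [Sum.elim_inr, hj, if_false]
            exact PRF.var _
      · congr 1
        funext i'
        by_cases hj : i' = i
        · subst hj
          simp only [Sum.elim_inr, if_true, Function.update_self]
          rfl
        · simp only [Sum.elim_inr, hj, if_false, Function.update_of_ne hj, ne_eq,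
            not_false_eq_true]
          rfl
    refine (SM.ite hP (q := fun e _ v => a e v) (fun e => DV.par (ha e))
      (SM.ite hU (q := fun i => i.elim) (fun i => i.elim)
        (SM.sum Finset.univ fun j => (h1 j).mul (SM.const (hA j))) (SM.const (DV.const 0)))
          h2).congr fun p _ v x => ?_
    have e3 : (∑ e : Fin r → Fin (d + 1), (Sum.elim x (fun e => ((a e v : ℕ) : ZMod p))
        (Sum.inr e)) * ∏ i', (Sum.elim x (fun e => ((a e v : ℕ) : ZMod p))
          (Sum.inl (Sum.inl i'))) ^ (e i' : ℕ)) =
        sval (fun e => a e v) fun i => x (Sum.inl i) := rfl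
    rw [e3]
    by_cases h3 : sval (fun e => a e v) (fun i => x (Sum.inl i)) = 0
    · rw [if_pos h3]
      simp only [h3, zero_mul]
      by_cases h4 : x (Sum.inr i) = 0
      · refine (if_pos h4).trans ?_
        simp only [h4, if_true]
        have h6 : CC N (fun s => W p v (fun i => x (Sum.inl i))
            (Function.update (fun i => x (Sum.inr i)) i s)) := by
          intro s y hy
          beta_reduce
          rw [← hC p v _ (Function.update (fun i => x (Sum.inr i)) i s)
            (Function.update (fun _ => 1) i y)]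
          · congr 1
            funext j
            by_cases hj : j = i
            · subst hj
              simp
            · simp [hj]
          · intro j
            by_cases hj : j = i
            · subst hj
              simpa using hy
            · simp [hj]
        have h7 : ∀ s : ZMod p, W p v (fun i => x (Sum.inl i))
            (Function.update (fun i => x (Sum.inr i)) i s) = ∑ j : Fin (N + 1),
              W p v (fun i => x (Sum.inl i)) (Function.update (fun i => x (Sum.inr i)) i
                (rp j (g p : ZMod p))) * if Cl N j (ZMod p) ![s, (g p : ZMod p)] then 1 else 0 := by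
          intro s
          rw [cc_sum hN (hG p) h6 s]
          refine Finset.sum_congr rfl fun j _ => ?_
          by_cases h8 : Cl N j (ZMod p) ![s, (g p : ZMod p)]
          · rw [if_pos h8, if_pos h8, mul_one]
          · rw [if_neg h8, if_neg h8, mul_zero]
        rw [Finset.sum_congr rfl fun s _ => h7 s, Finset.sum_comm]
        refine Finset.sum_congr rfl fun j _ => ?_
        rw [← Finset.mul_sum, hA', Nat.card_eq_fintype_card, Fintype.card_subtype,
          Finset.card_filter]
      · refine (if_neg h4).trans ?_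
        symm
        exact Finset.sum_eq_zero fun s _ => if_neg fun h6 => h4 h6.symm
    · rw [if_neg h3]
      beta_reduce
      rw [Finset.sum_eq_single (x (Sum.inr i) /
        sval (fun e => a e v) (fun i => x (Sum.inl i))), if_pos]
      · rw [mul_div_cancel₀ _ h3]
      · intro s _ hs
        refine if_neg fun h4 => hs ?_
        rw [← h4, mul_div_cancel_left₀ _ h3]
      · intro h4
        exact absurd (Finset.mem_univ _) h4

open scoped Classical in
theorem iv_scale {d : ℕ} (a : Fin k → (Fin r → Fin (d + 1)) → (Fin n → ℕ) → ℕ)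
    (ha : ∀ i e, DFun n (a i e)) {W : WV n r k} (h : IV W) :
    IV (fun p _ v t u => ∑ s : Fin k → ZMod p,
      if ∀ i, sval (fun e => a i e v) t * s i = u i then W p v t s else 0) := by
  have h1 : ∀ T : Finset (Fin k), IV (n := n) (r := r) (k := k) (fun p _ v t u =>
      ∑ s : Fin k → ZMod p, if (∀ i ∈ T, sval (fun e => a i e v) t * s i = u i) ∧
        ∀ i, i ∉ T → s i = u i then W p v t s else 0) := by
    intro T
    induction T using Finset.induction_on with
    | empty =>
      refine h.congr fun p _ v t u => ?_
      rw [Finset.sum_eq_single u, if_pos]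
      · exact ⟨fun i hi => absurd hi (Finset.notMem_empty i), fun _ _ => rfl⟩
      · intro s _ hs
        exact if_neg fun h2 => hs (funext fun i => h2.2 i (Finset.notMem_empty i))
      · intro h2
        exact absurd (Finset.mem_univ _) h2
    | insert i T hi ih =>
      refine (iv_scale1 i (a i) (ha i) ih).congr fun p _ v t u => ?_
      have h2 : ∀ s' : ZMod p, (if sval (fun e => a i e v) t * s' = u i then
          ∑ s : Fin k → ZMod p, if (∀ j ∈ T, sval (fun e => a j e v) t * s j =
            Function.update u i s' j) ∧ ∀ j, j ∉ T → s j = Function.update u i s' j then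
              W p v t s else 0 else 0) = ∑ s : Fin k → ZMod p, if s' = s i then
                (if (∀ j ∈ insert i T, sval (fun e => a j e v) t * s j = u j) ∧
                  ∀ j, j ∉ insert i T → s j = u j then W p v t s else 0) else 0 := by
        intro s'
        have h3 : ∀ s : Fin k → ZMod p, (sval (fun e => a i e v) t * s' = u i ∧
            (∀ j ∈ T, sval (fun e => a j e v) t * s j = Function.update u i s' j) ∧
              ∀ j, j ∉ T → s j = Function.update u i s' j) ↔ s' = s i ∧
                (∀ j ∈ insert i T, sval (fun e => a j e v) t * s j = u j) ∧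
                  ∀ j, j ∉ insert i T → s j = u j := by
          intro s
          constructor
          · rintro ⟨h4, h5, h6⟩
            have h7 : s i = s' := by simpa using h6 i hi
            refine ⟨h7.symm, fun j hj => ?_, fun j hj => ?_⟩
            · rcases Finset.mem_insert.1 hj with rfl | hj'
              · rw [h7, h4]
              · have hji : j ≠ i := fun h => hi (h ▸ hj')
                simpa [hji] using h5 j hj'
            · have hji : j ≠ i := fun h => hj (h ▸ Finset.mem_insert_self i T)
              simpa [hji] using h6 j fun h => hj (Finset.mem_insert_of_mem h)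
          · rintro ⟨rfl, h5, h6⟩
            refine ⟨h5 i (Finset.mem_insert_self i T), fun j hj => ?_, fun j hj => ?_⟩
            · have hji : j ≠ i := fun h => hi (h ▸ hj)
              simpa [hji] using h5 j (Finset.mem_insert_of_mem hj)
            · by_cases hji : j = i
              · subst hji
                simp
              · simpa [hji] using h6 j (by simp [hji, hj])
        by_cases h4 : sval (fun e => a i e v) t * s' = u i
        · rw [if_pos h4]
          refine Finset.sum_congr rfl fun s _ => ?_
          rw [← ite_and]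
          exact if_congr ((and_iff_right h4).symm.trans (h3 s)) rfl rfl
        · rw [if_neg h4]
          symm
          refine Finset.sum_eq_zero fun s _ => ?_
          rw [← ite_and]
          exact if_neg fun h5 => h4 ((h3 s).2 h5).1
      rw [Finset.sum_congr rfl fun s' _ => h2 s', Finset.sum_comm]
      refine Finset.sum_congr rfl fun s _ => ?_
      rw [Finset.sum_ite_eq' Finset.univ (s i), if_pos (Finset.mem_univ _)]
  refine (h1 Finset.univ).congr fun p _ v t u => ?_
  refine Finset.sum_congr rfl fun s _ => if_congr ?_ rfl rfl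
  simp

theorem iv_root {d : ℕ} (M : Fin k → Fin l → ℕ)
    (a : Fin k → (Fin r → Fin (d + 1)) → (Fin n → ℕ) → ℕ)
    (ha : ∀ i e, DFun n (a i e)) {W : WV n r k} (h : IV W) :
    IV (n := n) (r := r) (k := l) (fun p _ v t u =>
      W p v t fun i => sval (fun e => a i e v) t * ∏ j, u j ^ M i j) := by
  obtain ⟨N, hN, hC, hS⟩ := h
  refine ⟨N, hN, fun p _ v t z ζ hζ => ?_, ?_⟩
  · beta_reduce
    rw [← hC p v t (fun i => sval (fun e => a i e v) t * ∏ j, z j ^ M i j)
      (fun i => ∏ j, ζ j ^ M i j) fun i => Finset.prod_ne_zero_iff.2 fun j _ =>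
        pow_ne_zero _ (hζ j)]
    congr 1
    funext i
    rw [mul_assoc, ← Finset.prod_pow, ← Finset.prod_mul_distrib]
    congr 1
    refine Finset.prod_congr rfl fun j _ => ?_
    rw [mul_pow, ← pow_mul, ← pow_mul, mul_comm N]
  · refine (hS.comp (κ' := Fin r ⊕ Fin l) (l := Fin k × (Fin r → Fin (d + 1)))
      (q := fun b _ v => a b.1 b.2 v)
      (G := Sum.elim (fun i K _ x => x (Sum.inl (Sum.inl i))) fun i K _ x =>
        (∑ e : Fin r → Fin (d + 1), x (Sum.inr (i, e)) *
          ∏ i', x (Sum.inl (Sum.inl i')) ^ (e i' : ℕ)) * ∏ j, x (Sum.inl (Sum.inr j)) ^ M i j) (fun j => ?_) fun b => DV.par (ha b.1 b.2)).congr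
            fun p _ v x => rfl
    rcases j with j | j
    · exact PRF.var _
    · refine PRF.mul (svp_prf (fun i' => Sum.inl (Sum.inl i')) fun e => Sum.inr (j, e)) ?_
      exact PRF.prod Finset.univ (F := fun (j' : Fin l) (K : Type) [Field K]
        (x : (Fin r ⊕ Fin l) ⊕ (Fin k × (Fin r → Fin (d + 1))) → K) =>
          x (Sum.inl (Sum.inr j')) ^ M j j') fun j' _ => (PRF.var _).pow _

theorem iv_cone {W : WV n r (k + 1)} (h : IV W) :
    IV (n := n) (r := r) (k := k) (fun p _ v t u =>
      (W p v t (Fin.cons 0 u) - W p v t (Fin.cons 1 u)) / p) := by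
  obtain ⟨N, hN, hC, hS⟩ := h
  have hF : DFun 3 (fun w => (w 1 - w 2) / w 0) := by
    have h1 := DFun.ite (Delta0.eqFun (DFun.proj (n := 3) 0) (DFun.const 0)) (DFun.const 0)
      (DFun.div (DFun.sub (DFun.proj (n := 3) 1) (DFun.proj 2))
        (DFun.sub (DFun.proj 0) (DFun.const 1)))
    have e : (fun w : Fin 3 → ℕ => if w 0 = 0 then 0 else (w 1 - w 2) / (w 0 - 1 + 1)) =
        fun w => (w 1 - w 2) / w 0 := by
      funext w
      split_ifs with h2
      · rw [h2, Nat.div_zero]
      · rw [Nat.sub_add_cancel (Nat.one_le_iff_ne_zero.2 h2)]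
    rwa [e] at h1
  have hc : ∀ (K : Type) [Field K] (u ζ : Fin k → K) (c : K),
      (Fin.cons c (fun i => u i * ζ i ^ N) : Fin (k + 1) → K) = fun i => (Fin.cons c u : Fin (k + 1) → K) i * (Fin.cons 1 ζ : Fin (k + 1) → K) i ^ N := by
    intro K _ u ζ c
    funext i
    refine Fin.cases ?_ (fun i => ?_) i
    · simp
    · simp
  refine ⟨N, hN, fun p _ v t z ζ hζ => ?_, ?_⟩
  · beta_reduce
    have hz : ∀ i, (Fin.cons 1 ζ : Fin (k + 1) → ZMod p) i ≠ 0 := by
      intro i
      refine Fin.cases ?_ (fun i => ?_) i
      · simp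
      · simpa using hζ i
    rw [hc, hc, hC p v t _ _ hz, hC p v t _ _ hz]
  · refine sm_map2 (F := fun a b c => (b - c) / a) hF
      ((hS.comp (κ' := Fin r ⊕ Fin k) (l := Empty) (q := fun i => i.elim)
        (G := Sum.elim (fun i K _ x => x (Sum.inl (Sum.inl i))) (Fin.cons (fun K _ _ => 0)
          fun i K _ x => x (Sum.inl (Sum.inr i)))) (fun j => ?_) fun i => i.elim).congr
            fun p _ v x => ?_)
      ((hS.comp (κ' := Fin r ⊕ Fin k) (l := Empty) (q := fun i => i.elim)
        (G := Sum.elim (fun i K _ x => x (Sum.inl (Sum.inl i))) (Fin.cons (fun K _ _ => 1)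
          fun i K _ x => x (Sum.inl (Sum.inr i)))) (fun j => ?_) fun i => i.elim).congr
            fun p _ v x => ?_)
    · rcases j with j | j
      · exact PRF.var _
      · refine Fin.cases ?_ (fun j => ?_) j
        · exact PRF.zero
        · exact PRF.var _
    · congr 1
      funext i
      refine Fin.cases ?_ (fun i => ?_) i <;> rfl
    · rcases j with j | j
      · exact PRF.var _
      · refine Fin.cases ?_ (fun j => ?_) j
        · exact PRF.one
        · exact PRF.var _
    · congr 1
      funext i
      refine Fin.cases ?_ (fun i => ?_) i <;> rfl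

end Pool.Agent.IsoV
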