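import Pool.Agent.IsoV.Mono
import Pool.Agent.IsoV.Form
import Pool.Agent.IsoV.Scal
import Pool.Agent.IsoV.Bund
import Pool.Agent.IsoV.Quad
import Pool.Agent.IsoV.Crt

/-!
# The induction

`ind_var`, ..., `ind_bundle`: the statement for the constructors of `Cls`; `cls_ind`.
-/

set_option autoImplicit false

noncomputable section

namespace Pool.Agent.IsoV

open Finset Polynomial Pool.Agent.PRc Pool.Agent.Grz Pool.Agent.CvS Pool.Agent.IsoC

variable {n r : ℕ} {κ κ' : Type} {q q' k k' : ℕ} {S : Sid n r κ q} {S' : Sid n r κ' q'}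
  {G G' : Gd n} {E : Fam n r κ k} {E' : Fam n r κ' k'}

/-- numbers of elements as sums over the values of a map -/
theorem card_fib {X K : Type} [Finite X] [Fintype K] (S : X → Prop) (f : X → K) (Φ : K → Prop)
    [DecidablePred Φ] : Nat.card {x : X // S x ∧ Φ (f x)} =
      ∑ u : K, if Φ u then Nat.card {x : X // S x ∧ f x = u} else 0 := by
  classical
  have _ : Fintype X := Fintype.ofFinite X
  have h1 : ∀ u : K, (if Φ u then Nat.card {x : X // S x ∧ f x = u} else 0) =
      ∑ x : X, if S x ∧ Φ (f x) ∧ f x = u then 1 else 0 := by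
    intro u
    by_cases h : Φ u
    · rw [if_pos h, Nat.card_eq_fintype_card, Fintype.card_subtype, Finset.card_filter]
      refine Finset.sum_congr rfl fun x _ => if_congr ?_ rfl rfl
      constructor
      · rintro ⟨h2, rfl⟩
        exact ⟨h2, h, rfl⟩
      · rintro ⟨h2, _, h3⟩
        exact ⟨h2, h3⟩
    · rw [if_neg h]
      symm
      refine Finset.sum_eq_zero fun x _ => if_neg ?_
      rintro ⟨_, h2, rfl⟩
      exact h h2
  rw [Finset.sum_congr rfl fun u _ => h1 u, Finset.sum_comm, Nat.card_eq_fintype_card,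
    Fintype.card_subtype, Finset.card_filter]
  refine Finset.sum_congr rfl fun x _ => ?_
  have h2 : ∀ u : K, (if S x ∧ Φ (f x) ∧ f x = u then 1 else 0) =
      if f x = u then (if S x ∧ Φ (f x) then 1 else 0) else 0 := by
    intro u
    rw [← ite_and]
    exact if_congr ⟨fun h => ⟨h.2.2, h.1, h.2.1⟩, fun h => ⟨h.2.1, h.2.2, h.1⟩⟩ rfl rfl
  rw [Finset.sum_congr rfl fun u _ => h2 u, Finset.sum_ite_eq Finset.univ (f x),
    if_pos (Finset.mem_univ _)]

/-- the trick with the cone -/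
theorem card_cone {X K : Type} [Field K] [Finite K] [Finite X] (A : X → Prop) (f : X → K) :
    Nat.card {z : K × X // A z.2 ∧ z.1 * f z.2 = 0} =
      Nat.card {z : K × X // A z.2 ∧ z.1 * f z.2 = 1} +
        Nat.card K * Nat.card {x : X // A x ∧ f x = 0} := by
  classical
  have _ : Fintype X := Fintype.ofFinite X
  have _ : Fintype K := Fintype.ofFinite K
  have h1 : ∀ P : K × X → Prop, Nat.card {z : K × X // P z} =
      ∑ x : X, ∑ w : K, if P (w, x) then 1 else 0 := by
    intro P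
    rw [Nat.card_eq_fintype_card, Fintype.card_subtype, Finset.card_filter,
      Fintype.sum_prod_type_right]
  rw [h1, h1, Nat.card_eq_fintype_card (α := {x : X // A x ∧ f x = 0}), Fintype.card_subtype,
    Finset.card_filter, Finset.mul_sum, ← Finset.sum_add_distrib]
  refine Finset.sum_congr rfl fun x _ => ?_
  by_cases hA : A x
  · by_cases hf : f x = 0
    · simp [hA, hf, Nat.card_eq_fintype_card]
    · have h2 : ∀ w : K, w * f x = 1 ↔ w = (f x)⁻¹ := fun w =>
        ⟨fun h => eq_inv_of_mul_eq_one_left h, fun h => by rw [h, inv_mul_cancel₀ hf]⟩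
      simp [hA, hf, h2]
  · simp [hA]

theorem ind_var : Ind (n := n) (r := r) (κ := Unit) (q := 0) (k := 1)
    (fun _ _ _ _ _ i => i.elim0) (fun _ _ => True) (fun _ _ _ _ x _ => x ()) := by
  refine ⟨_, iv_const (DV.const 1), fun p _ v _ t u => ?_⟩
  unfold Wn
  rw [Nat.card_eq_one_iff_unique]
  refine ⟨⟨fun a b => ?_⟩, ⟨⟨fun _ => u 0, fun i => i.elim0, fun i => ?_⟩⟩⟩
  · refine Subtype.ext (funext fun i => ?_)
    exact (a.2.2 0).trans (b.2.2 0).symm
  · rw [Subsingleton.elim i 0]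

theorem ind_quad (s d : ℕ) (c : Fin s → Fin s → (Fin r → Fin (d + 1)) → (Fin n → ℕ) → ℕ)
    (hc : ∀ i j e, DFun n (c i j e)) : Ind (n := n) (r := r) (κ := Fin s) (q := 0) (k := 1)
    (fun _ _ _ _ _ i => i.elim0) (fun _ _ => True)
      (fun v _ _ t x _ => ∑ i, ∑ j, sval (fun e => c i j e v) t * x i * x j) := by
  refine ⟨_, iv_quad r s d c hc, fun p _ v _ t u => ?_⟩
  unfold Wn
  refine Nat.card_congr (Equiv.subtypeEquivRight fun x => ?_)
  refine ⟨fun h => h.2 0, fun h => ⟨fun i => i.elim0, fun i => ?_⟩⟩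
  rw [Subsingleton.elim i 0]
  exact h

theorem ind_ren (e : κ ≃ κ') (h : Ind S G E) : Ind (n := n) (r := r) (κ := κ')
    (fun v R _ t x => S v R t fun i => x (e i)) G (fun v R _ t x => E v R t fun i => x (e i)) := by
  obtain ⟨W, hW, hE⟩ := h
  refine ⟨W, hW, fun p _ v hg t u => ?_⟩
  rw [← hE p v hg t u]
  unfold Wn
  exact Nat.card_congr ((e.arrowCongr (Equiv.refl (ZMod p))).symm.subtypeEquiv fun x => Iff.rfl)

theorem ind_pair (h : Ind S G E) (h' : Ind S' G' E') : Ind (n := n) (r := r) (κ := κ ⊕ κ')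
    (fun v R _ t x => Fin.append (S v R t fun i => x (Sum.inl i))
      (S' v R t fun i => x (Sum.inr i))) (fun v p => G v p ∧ G' v p)
    (fun v R _ t x => Fin.append (E v R t fun i => x (Sum.inl i))
      (E' v R t fun i => x (Sum.inr i))) := by
  obtain ⟨W, hW, hE⟩ := h
  obtain ⟨W', hW', hE'⟩ := h'
  refine ⟨_, iv_pair hW hW', fun p _ v hg t u => ?_⟩
  rw [← hE p v hg.1, ← hE' p v hg.2]
  unfold Wn
  rw [← Nat.card_prod]
  refine Nat.card_congr ((((Equiv.sumArrowEquivProdArrow κ κ' (ZMod p)).subtypeEquiv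
    (q := fun y => ((∀ i, S v (ZMod p) t y.1 i = 0) ∧ ∀ i, E v (ZMod p) t y.1 i =
      u (Fin.castAdd k' i)) ∧ ((∀ i, S' v (ZMod p) t y.2 i = 0) ∧ ∀ i, E' v (ZMod p) t y.2 i =
        u (Fin.natAdd k i))) fun x => ?_)).trans (Equiv.subtypeProdEquivProd
          (p := fun y => (∀ i, S v (ZMod p) t y i = 0) ∧ ∀ i, E v (ZMod p) t y i =
            u (Fin.castAdd k' i)) (q := fun y => (∀ i, S' v (ZMod p) t y i = 0) ∧
              ∀ i, E' v (ZMod p) t y i = u (Fin.natAdd k i))))
  have e1 : (Equiv.sumArrowEquivProdArrow κ κ' (ZMod p) x).1 = fun i => x (Sum.inl i) := rfl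
  have e2 : (Equiv.sumArrowEquivProdArrow κ κ' (ZMod p) x).2 = fun i => x (Sum.inr i) := rfl
  rw [e1, e2]
  constructor
  · rintro ⟨h1, h2⟩
    refine ⟨⟨fun i => ?_, fun i => ?_⟩, fun i => ?_, fun i => ?_⟩
    · simpa using h1 (Fin.castAdd q' i)
    · simpa using h2 (Fin.castAdd k' i)
    · simpa using h1 (Fin.natAdd q i)
    · simpa using h2 (Fin.natAdd k i)
  · rintro ⟨⟨h1, h2⟩, h3, h4⟩
    refine ⟨fun i => ?_, fun i => ?_⟩
    · refine Fin.addCases (fun i => ?_) (fun i => ?_) i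
      · simpa using h1 i
      · simpa using h3 i
    · refine Fin.addCases (fun i => ?_) (fun i => ?_) i
      · simpa using h2 i
      · simpa using h4 i

open scoped Classical in
theorem ind_mono [Finite κ] {d : ℕ} (M : Fin k' → Fin k → ℕ)
    (hM : LinearIndependent ℚ (fun i j => (M i j : ℚ)))
    (a : Fin k' → (Fin r → Fin (d + 1)) → (Fin n → ℕ) → ℕ) (ha : ∀ i e, DFun n (a i e))
    (h : Ind S G E) : Ind (n := n) (r := r) (κ := κ) S G
      (fun v R _ t x i => sval (fun e => a i e v) t * ∏ j, E v R t x j ^ M i j) := by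
  obtain ⟨W, hW, hE⟩ := h
  refine ⟨_, iv_scale a ha (iv_mono M hM hW), fun p _ v hg t u => ?_⟩
  have h1 := card_fib (fun x : κ → ZMod p => ∀ i, S v (ZMod p) t x i = 0)
    (fun x => fun i => ∏ j, E v (ZMod p) t x j ^ M i j)
      (fun s => ∀ i, sval (fun e => a i e v) t * s i = u i)
  refine h1.trans (Finset.sum_congr rfl fun s _ => ?_)
  refine if_congr Iff.rfl ?_ rfl
  have h2 := card_fib (fun x : κ → ZMod p => ∀ i, S v (ZMod p) t x i = 0)
    (fun x => E v (ZMod p) t x) (fun w => ∀ i, ∏ j, w j ^ M i j = s i)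
  have h3 : Nat.card {x : κ → ZMod p // (∀ i, S v (ZMod p) t x i = 0) ∧
      (fun i => ∏ j, E v (ZMod p) t x j ^ M i j) = s} = Nat.card {x : κ → ZMod p //
        (∀ i, S v (ZMod p) t x i = 0) ∧ ∀ i, ∏ j, E v (ZMod p) t x j ^ M i j = s i} :=
    Nat.card_congr (Equiv.subtypeEquivRight fun x => and_congr_right fun _ => funext_iff)
  rw [h3, h2]
  refine Finset.sum_congr rfl fun w _ => if_congr Iff.rfl ?_ rfl
  rw [← hE p v hg t w]
  exact Nat.card_congr (Equiv.subtypeEquivRight fun x => and_congr_right fun _ => funext_iff)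

open scoped Classical in
theorem ind_form [Finite κ] {E : Fam n r κ (k + 2)} (w₁ w₂ e : ℕ) (h₁ : 0 < w₁) (h₂ : 0 < w₂)
    (he : 0 < e) (c : Fin (e + 1) → Fin (e + 1) → (Fin n → ℕ) → ℕ) (hc : ∀ i j, DFun n (c i j))
    (h : Ind S G E) : Ind (n := n) (r := r) (κ := κ) (k := k + 1) S G
      (fun v R _ t x => Fin.cons
        (∑ i : Fin (e + 1), ∑ j : Fin (e + 1), if w₁ * i + w₂ * j = e then
          (c i j v : R) * E v R t x 0 ^ (i : ℕ) * E v R t x 1 ^ (j : ℕ) else 0)
        (fun i : Fin k => E v R t x i.succ.succ)) := by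
  obtain ⟨W, hW, hE⟩ := h
  refine ⟨_, iv_form w₁ w₂ e h₁ h₂ he c hc hW, fun p _ v hg t u => ?_⟩
  have h1 := card_fib (fun x : κ → ZMod p => ∀ i, S v (ZMod p) t x i = 0)
    (fun x => E v (ZMod p) t x) (fun s => (∑ i : Fin (e + 1), ∑ j : Fin (e + 1),
      if w₁ * i + w₂ * j = e then (c i j v : ZMod p) * s 0 ^ (i : ℕ) * s 1 ^ (j : ℕ) else 0) =
        u 0 ∧ ∀ i : Fin k, s i.succ.succ = u i.succ)
  refine Eq.trans ?_ (h1.trans (Finset.sum_congr rfl fun s _ => if_congr Iff.rfl ?_ rfl))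
  · refine Nat.card_congr (Equiv.subtypeEquivRight fun x => and_congr_right fun _ => ?_)
    exact Fin.forall_fin_succ
  · rw [← hE p v hg t s]
    exact Nat.card_congr (Equiv.subtypeEquivRight fun x => and_congr_right fun _ => funext_iff)

theorem ind_root {l d : ℕ} (M : Fin k → Fin l → ℕ)
    (a : Fin k → (Fin r → Fin (d + 1)) → (Fin n → ℕ) → ℕ) (ha : ∀ i e, DFun n (a i e))
    (h : Ind S G E) : Ind (n := n) (r := r) (κ := Fin l ⊕ κ) (q := q + k) (k := l)
      (fun v R _ t x => Fin.append (S v R t fun i => x (Sum.inr i)) fun i =>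
        E v R t (fun i => x (Sum.inr i)) i -
          sval (fun e => a i e v) t * ∏ j, x (Sum.inl j) ^ M i j)
      G (fun _ _ _ _ x j => x (Sum.inl j)) := by
  obtain ⟨W, hW, hE⟩ := h
  refine ⟨_, iv_root M a ha hW, fun p _ v hg t u => ?_⟩
  rw [← hE p v hg]
  unfold Wn
  refine Nat.card_congr ⟨fun x => ⟨fun i => x.1 (Sum.inr i), fun i => ?_, fun i => ?_⟩,
    fun x => ⟨Sum.elim u x.1, fun i => ?_, fun i => rfl⟩, fun x => ?_, fun x => rfl⟩
  · simpa using x.2.1 (Fin.castAdd k i)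
  · have h1 := x.2.1 (Fin.natAdd q i)
    simp only [Fin.append_right] at h1
    rw [sub_eq_zero.1 h1]
    simp only [x.2.2]
  · refine Fin.addCases (fun i => ?_) (fun i => ?_) i
    · simpa using x.2.1 i
    · simpa [sub_eq_zero] using x.2.2 i
  · refine Subtype.ext (funext fun i => ?_)
    rcases i with i | i
    · exact (x.2.2 i).symm
    · rfl

open scoped Classical in
theorem ind_cone [Finite κ] {Q : Fam n r κ 1}
    (h : Ind (n := n) (r := r) (κ := Unit ⊕ κ) (q := q) (k := k + 1)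
      (fun v R _ t x => S v R t fun i => x (Sum.inr i)) G
        (fun v R _ t x => Fin.cons (x (Sum.inl ()) * Q v R t (fun i => x (Sum.inr i)) 0)
          (E v R t fun i => x (Sum.inr i)))) :
    Ind (n := n) (r := r) (κ := κ) (q := q + 1) (k := k)
      (fun v R _ t x => Fin.snoc (S v R t x) (Q v R t x 0)) G E := by
  obtain ⟨W, hW, hE⟩ := h
  refine ⟨_, iv_cone hW, fun p _ v hg t u => ?_⟩
  rw [← hE p v hg, ← hE p v hg]
  have h1 : ∀ c : ZMod p, Wn (n := n) (r := r) (κ := Unit ⊕ κ) (q := q) (k := k + 1)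
      (fun v R _ t x => S v R t fun i => x (Sum.inr i))
        (fun v R _ t x => Fin.cons (x (Sum.inl ()) * Q v R t (fun i => x (Sum.inr i)) 0)
          (E v R t fun i => x (Sum.inr i))) p v t (Fin.cons c u) =
      Nat.card {z : ZMod p × (κ → ZMod p) // ((∀ i, S v (ZMod p) t z.2 i = 0) ∧
        ∀ i, E v (ZMod p) t z.2 i = u i) ∧ z.1 * Q v (ZMod p) t z.2 0 = c} := by
    intro c
    unfold Wn
    refine Nat.card_congr ⟨fun x => ⟨(x.1 (Sum.inl ()), fun i => x.1 (Sum.inr i)),
      ⟨x.2.1, fun i => ?_⟩, ?_⟩, fun z => ⟨Sum.elim (fun _ => z.1.1) z.1.2, z.2.1.1, fun i => ?_⟩,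
        fun x => ?_, fun z => rfl⟩
    · exact x.2.2 i.succ
    · exact x.2.2 0
    · refine Fin.cases ?_ (fun i => ?_) i
      · exact z.2.2
      · exact z.2.1.2 i
    · refine Subtype.ext (funext fun i => ?_)
      rcases i with i | i <;> rfl
  have h2 := card_cone (K := ZMod p) (X := κ → ZMod p) (fun x => (∀ i, S v (ZMod p) t x i = 0) ∧
        ∀ i, E v (ZMod p) t x i = u i) fun x => Q v (ZMod p) t x 0
  rw [h1, h1, h2, Nat.add_sub_cancel_left, Nat.card_zmod,
    Nat.mul_div_cancel_left _ (Fact.out : p.Prime).pos]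
  unfold Wn
  refine Nat.card_congr (Equiv.subtypeEquivRight fun x => ?_)
  constructor
  · rintro ⟨h3, h4⟩
    refine ⟨⟨fun i => ?_, h4⟩, ?_⟩
    · simpa using h3 i.castSucc
    · simpa using h3 (Fin.last q)
  · rintro ⟨⟨h3, h4⟩, h5⟩
    refine ⟨fun i => ?_, h4⟩
    refine Fin.lastCases ?_ (fun i => ?_) i
    · simpa using h5
    · simpa using h3 i

open scoped Classical in
theorem ind_bundle [Finite κ] (r' : ℕ) {q₀ d : ℕ}
    (P : Fin q₀ → (Fin r → Fin (d + 1)) → (Fin n → ℕ) → ℕ) (hP : ∀ l e, DFun n (P l e))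
    (h : Ind S G E) : Ind (n := n) (r := r') (κ := Fin r ⊕ κ) (q := q₀ + q) (k := k)
      (fun v R _ _ x => Fin.append (fun l => sval (fun e => P l e v) fun i => x (Sum.inl i))
        (S v R (fun i => x (Sum.inl i)) fun i => x (Sum.inr i)))
      (fun v p => Cv p (fun l e => P l e v) ∧ G v p)
      (fun v R _ _ x => E v R (fun i => x (Sum.inl i)) fun i => x (Sum.inr i)) := by
  obtain ⟨W, hW, hE⟩ := h
  obtain ⟨W', hW', h'⟩ := iv_bundle r' P hP hW
  refine ⟨W', hW', fun p _ v hg t' u => ?_⟩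
  rw [h' p v hg.1]
  have h1 := card_fib (fun y : Fin r ⊕ κ → ZMod p =>
    (∀ i, S v (ZMod p) (fun i => y (Sum.inl i)) (fun i => y (Sum.inr i)) i = 0) ∧
      ∀ i, E v (ZMod p) (fun i => y (Sum.inl i)) (fun i => y (Sum.inr i)) i = u i)
    (fun y => fun i => y (Sum.inl i)) (fun t => ∀ l, sval (fun e => P l e v) t = 0)
  refine Eq.trans ?_ (h1.trans (Finset.sum_congr rfl fun t _ => ?_))
  · refine Nat.card_congr (Equiv.subtypeEquivRight fun x => ?_)
    constructor
    · rintro ⟨h2, h3⟩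
      refine ⟨⟨fun i => ?_, h3⟩, fun i => ?_⟩
      · simpa using h2 (Fin.natAdd q₀ i)
      · simpa using h2 (Fin.castAdd q i)
    · rintro ⟨⟨h2, h3⟩, h4⟩
      refine ⟨fun i => ?_, h3⟩
      refine Fin.addCases (fun i => ?_) (fun i => ?_) i
      · simpa using h4 i
      · simpa using h2 i
  · refine if_congr Iff.rfl ?_ rfl
    rw [← hE p v hg.2]
    unfold Wn
    refine Nat.card_congr ⟨fun x => ⟨fun i => x.1 (Sum.inr i), ?_⟩,
      fun x => ⟨Sum.elim t x.1, x.2, rfl⟩, fun x => ?_, fun x => rfl⟩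
    · have h2 := x.2.1
      rw [x.2.2] at h2
      exact h2
    · refine Subtype.ext (funext fun i => ?_)
      rcases i with i | i
      · exact (congrFun x.2.2 i).symm
      · rfl

theorem cls_ind {n r : ℕ} {κ : Type} {q k : ℕ} {S : Sid n r κ q} {G : Gd n} {E : Fam n r κ k}
    (h : Cls n r κ q k S G E) : Ind S G E := by
  induction h with
  | var r => exact ind_var
  | quad r s d c hc => exact ind_quad s d c hc
  | ren e h ih => exact ind_ren e ih
  | pair h h' ih ih' => exact ind_pair ih ih'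
  | mono M hM a ha h ih =>
    have := cls_finite h
    exact ind_mono M hM a ha ih
  | form w₁ w₂ e h₁ h₂ he c hc h ih =>
    have := cls_finite h
    exact ind_form w₁ w₂ e h₁ h₂ he c hc ih
  | root M a ha h ih => exact ind_root M a ha ih
  | cone h ih =>
    have := cls_finite (Cls.cone h)
    exact ind_cone ih
  | bundle r' P hP h ih =>
    have := cls_finite h
    exact ind_bundle r' P hP ih

end Pool.Agent.IsoV
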