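import Pool.Agent.IsoV.Vec

/-!
# Monomials with linearly independent exponent vectors

`iv_mono`: sums over the `u` with `∏ u j ^ M i j = u' i` for all `i`. Proof: `iv_op` with `A p v
u' u` this condition, `N' = L * N`, `L`, `w` of `IsoC.wts`; `η j = ∏ ζ i ^ w i j` (integer powers,
as in the proof of `IsoC.im_inv`); the numbers on the classes are `Nat.card (IsoC.Fib M l g (rp l'
g'))`: `IsoC.fib_card`, `IsoC.im_card` (as in the proof of `IsoC.iw_dels`).
-/

set_option autoImplicit false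

noncomputable section

namespace Pool.Agent.IsoV

open Finset Polynomial Pool.Agent.PRc Pool.Agent.Grz Pool.Agent.CvS Pool.Agent.IsoC

variable {n r k k' : ℕ}

private theorem prod_zpow_M {α : Type} (A : Finset α) {K : Type} [Field K] {a : K} (ha : a ≠ 0)
    (f : α → ℤ) : ∏ j ∈ A, a ^ f j = a ^ ∑ j ∈ A, f j := by
  classical
  induction A using Finset.induction_on with
  | empty => simp
  | insert j A hj ih => rw [Finset.prod_insert hj, Finset.sum_insert hj, ih, zpow_add₀ ha]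

/-- the factors -/
private theorem eta_M {M : Fin k' → Fin k → ℕ} {L : ℕ} {w : Fin k' → Fin k → ℤ}
    (hw : ∀ i i' : Fin k', ∑ j, (M i j : ℤ) * w i' j = if i = i' then (L : ℤ) else 0)
    {K : Type} [Field K] {ζ : Fin k' → K} (hζ : ∀ i, ζ i ≠ 0) (i : Fin k') :
    ∏ j, (∏ i', ζ i' ^ w i' j) ^ M i j = ζ i ^ L := by
  have h2 : ∀ j, (∏ i', ζ i' ^ w i' j) ^ M i j = ∏ i', ζ i' ^ ((M i j : ℤ) * w i' j) := by
    intro j
    rw [← Finset.prod_pow]
    refine Finset.prod_congr rfl fun i' _ => ?_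
    rw [← zpow_natCast, ← zpow_mul, mul_comm]
  simp only [h2]
  rw [Finset.prod_comm]
  have h3 : ∀ i', ∏ j, ζ i' ^ ((M i j : ℤ) * w i' j) = if i = i' then ζ i ^ L else 1 := by
    intro i'
    rw [prod_zpow_M _ (hζ i'), hw i i']
    by_cases h : i = i'
    · subst h
      rw [if_pos rfl, if_pos rfl, zpow_natCast]
    · rw [if_neg h, if_neg h, zpow_zero]
  simp only [h3]
  rw [Finset.prod_ite_eq]
  simp

/-- the image, as a first-order relation between the parameters -/
private theorem im_prq_M {s r N L : ℕ} (M : Fin r → Fin s → ℕ) (i : Fin s → Fin (N + 1))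
    (k : Fin r → Fin (L + 1)) : PRQ (fun K _ (x : Fin 2 → K) =>
      Im M i (x 0) (fun a => (rp (k a) (x 1) : K))) := by
  have h1 : PRQ (ι := Fin 2 ⊕ Fin s) (fun K _ x =>
      (∀ j, Cl N (i j) K ![x (Sum.inr j), x (Sum.inl 0)]) ∧
      ∀ a, ∏ j, x (Sum.inr j) ^ M a j = rp (k a) (x (Sum.inl 1))) := by
    refine PRQ.and (PRQ.allF fun j => ?_) (PRQ.allF fun a => ?_)
    · refine ((cl_prq N (i j)).comp (G := ![fun K _ (x : Fin 2 ⊕ Fin s → K) => x (Sum.inr j),
        fun K _ (x : Fin 2 ⊕ Fin s → K) => x (Sum.inl 0)]) fun b => ?_).congr fun K _ x => ?_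
      · fin_cases b
        · exact PRF.var _
        · exact PRF.var _
      · refine iff_of_eq (congrArg (Cl N (i j) K) ?_)
        funext b
        fin_cases b <;> rfl
    · refine PRQ.eq ?_ (rp_prf (k a) (PRF.var _))
      exact PRF.prod Finset.univ (F := fun (j : Fin s) (K : Type) [Field K]
        (x : Fin 2 ⊕ Fin s → K) => x (Sum.inr j) ^ M a j) fun j _ => (PRF.var _).pow _
  exact h1.ex

/-- the numbers on the classes -/
private theorem num_M (M : Fin k' → Fin k → ℕ) {L N : ℕ} (hN : 0 < N) (hL : 0 < L)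
    {w : Fin k' → Fin k → ℤ}
    (hw : ∀ i i' : Fin k', ∑ j, (M i j : ℤ) * w i' j = if i = i' then (L : ℤ) else 0)
    {g g' : ℕ → ℕ} (hg : DFun 1 (fun w => g (w 0))) (hg' : DFun 1 (fun w => g' (w 0)))
    (hG' : ∀ (p : ℕ) [Fact p.Prime], Gen (L * N) (g' p : ZMod p))
    (l : Fin k → Fin (N + 1)) (l' : Fin k' → Fin (L * N + 1)) :
    ∃ f : ℕ → (Fin n → ℕ) → ℕ, DV f ∧ ∀ (p : ℕ) [Fact p.Prime] (v : Fin n → ℕ), f p v =
      Nat.card (Fib M l (g p : ZMod p) (fun a => (rp (l' a) (g' p : ZMod p) : ZMod p))) := by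
  classical
  have hA : ∀ j : Fin (N + 1), ∃ f : ℕ → (Fin n → ℕ) → ℕ, DV f ∧ ∀ (p : ℕ) [Fact p.Prime]
      (v : Fin n → ℕ), f p v = Nat.card {y : ZMod p // Cl N j (ZMod p) ![y, (g p : ZMod p)]} := by
    intro j
    obtain ⟨f, hf, h1⟩ := one_dv (n := n) (l := Unit) (q := fun _ p _ => g p)
      (R := fun K _ x => Cl N j K ![x (Sum.inl 0), x (Sum.inr ())]) (cl_one j ()) fun _ => DV.one hg
    exact ⟨f, hf, fun p _ v => h1 p v⟩
  choose A hA hA' using hA
  have hA2 : ∀ j : Fin (L * N + 1), ∃ f : ℕ → (Fin n → ℕ) → ℕ, DV f ∧ ∀ (p : ℕ) [Fact p.Prime]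
      (v : Fin n → ℕ), f p v =
        Nat.card {y : ZMod p // Cl (L * N) j (ZMod p) ![y, (g' p : ZMod p)]} := by
    intro j
    obtain ⟨f, hf, h1⟩ := one_dv (n := n) (l := Unit) (q := fun _ p _ => g' p)
      (R := fun K _ x => Cl (L * N) j K ![x (Sum.inl 0), x (Sum.inr ())]) (cl_one j ())
      fun _ => DV.one hg'
    exact ⟨f, hf, fun p _ v => h1 p v⟩
  choose A2 hA2 hA2' using hA2
  have hB : ∀ (i : Fin k → Fin (N + 1)) (a : Fin k' → Fin (L * N + 1)),
      ∃ f : ℕ → (Fin n → ℕ) → ℕ, DV f ∧ ∀ (p : ℕ) [Fact p.Prime] (v : Fin n → ℕ), f p v =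
        if Im M i (g p : ZMod p) (fun b => (rp (a b) (g' p : ZMod p) : ZMod p)) then 1 else 0 := by
    intro i a
    refine ⟨_, DV.iteQ (im_prq_M M i a) (q := ![fun p _ => g p, fun p _ => g' p]) (fun b => ?_)
      (DV.const 1) (DV.const 0), fun p hp v => ?_⟩
    · fin_cases b
      · exact DV.one hg
      · exact DV.one hg'
    · refine if_congr ?_ rfl rfl
      exact ⟨fun ⟨_, h1⟩ => h1, fun h1 => ⟨hp.out, h1⟩⟩
  choose B hB hB' using hB
  have hI : ∀ (i : Fin k → Fin (N + 1)), ∃ f : ℕ → (Fin n → ℕ) → ℕ,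
      DV f ∧ ∀ (p : ℕ) [Fact p.Prime] (v : Fin n → ℕ), f p v =
        Nat.card {z : Fin k' → ZMod p // Im M i (g p : ZMod p) z} := by
    intro i
    refine ⟨fun p v => ∑ a : Fin k' → Fin (L * N + 1), B i a p v * ∏ b, A2 (a b) p v, ?_,
      fun p _ v => ?_⟩
    · exact DV.sum Finset.univ fun a => (hB i a).mul (DV.prod Finset.univ fun b => hA2 (a b))
    · have h1 := im_card hN hL hw i (K := ZMod p) (g := (g p : ZMod p)) (hG' p) fun _ => 1
      rw [Nat.card_eq_fintype_card, Fintype.card_subtype, Finset.card_filter, h1]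
      refine Finset.sum_congr rfl fun a _ => ?_
      rw [hB' i a p v]
      by_cases h : Im M i (g p : ZMod p) (fun b => (rp (a b) (g' p : ZMod p) : ZMod p))
      · rw [if_pos h, if_pos h, one_mul]
        simp only [hA2']
        rw [← Nat.card_pi, ← Nat.card_congr (Equiv.subtypePiEquivPi
          (p := fun b (y : ZMod p) => Cl (L * N) (a b) (ZMod p) ![y, (g' p : ZMod p)])),
          Nat.card_eq_fintype_card, Fintype.card_subtype, Finset.card_filter]
      · rw [if_neg h, if_neg h, zero_mul]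
  choose I hI hI' using hI
  refine ⟨fun p v => B l l' p v * ((∏ j, A (l j) p v) / I l p v), ?_, fun p _ v => ?_⟩
  · exact (hB l l').mul ((DV.prod Finset.univ fun j => hA (l j)).div (hI l))
  · rw [fib_card hN]
    beta_reduce
    rw [hB', hI']
    simp only [hA']
    by_cases h : Im M l (g p : ZMod p) (fun b => (rp (l' b) (g' p : ZMod p) : ZMod p))
    · rw [if_pos h, if_pos h, one_mul]
    · rw [if_neg h, if_neg h, zero_mul]

theorem iv_mono (M : Fin k' → Fin k → ℕ) (hM : LinearIndependent ℚ (fun i j => (M i j : ℚ)))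
    {W : WV n r k} (h : IV W) :
    IV (fun p _ v t u' => ∑ u : Fin k → ZMod p,
      if ∀ i, ∏ j, u j ^ M i j = u' i then W p v t u else 0) := by
  classical
  obtain ⟨L, hL, w, hw⟩ := wts M hM
  refine (iv_op h (fun p _ v u' u => ∀ i, ∏ j, u j ^ M i j = u' i) fun N hN =>
    ⟨L * N, Nat.mul_pos hL hN, fun p _ v ζ hζ => ?_, fun g g' hg hg' hG hG' l l' => ?_⟩).congr
      fun p _ v t u => ?_
  · refine ⟨fun j => ∏ i', ζ i' ^ w i' j, fun j =>
      Finset.prod_ne_zero_iff.2 fun i _ => zpow_ne_zero _ (hζ i), fun u' u => ?_⟩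
    refine forall_congr' fun i => ?_
    have h1 : ∏ j, (u j * (∏ i', ζ i' ^ w i' j) ^ N) ^ M i j =
        (∏ j, u j ^ M i j) * ζ i ^ (L * N) := by
      simp only [mul_pow, Finset.prod_mul_distrib]
      congr 1
      have h2 : ∀ j, ((∏ i', ζ i' ^ w i' j) ^ N) ^ M i j =
          ((∏ i', ζ i' ^ w i' j) ^ M i j) ^ N := fun j => by
        rw [← pow_mul, ← pow_mul, mul_comm]
      simp only [h2]
      rw [Finset.prod_pow, eta_M hw hζ i, ← pow_mul]
    rw [h1]
    exact mul_left_inj' (pow_ne_zero _ (hζ i))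
  · obtain ⟨f, hf, h1⟩ := num_M (n := n) M hN hL hw hg hg' hG' l l'
    refine ⟨f, hf, fun p _ v => (h1 p v).trans ?_⟩
    exact Nat.card_congr (Equiv.subtypeEquivRight fun u => and_comm)
  · refine Finset.sum_congr rfl fun y _ => ?_
    by_cases h3 : ∀ i, ∏ j, y j ^ M i j = u i
    · exact (if_pos h3).trans (if_pos h3).symm
    · exact (if_neg h3).trans (if_neg h3).symm

end Pool.Agent.IsoV
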