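import Pool.Agent.IsoV.Ind

/-!
# Point counts: main theorem
-/

set_option autoImplicit false

noncomputable section

namespace Pool.Agent.IsoV

open Finset Polynomial Pool.Agent.PRc Pool.Agent.Grz Pool.Agent.CvS Pool.Agent.IsoC

private theorem sqf_TopV {n : ℕ} {f : (Fin n → ℕ) → ℕ} (hf : DFun n f) :
    Delta0 n (fun v => Squarefree (f v)) := by
  have h1 : Delta0 (n + 1) (fun w => w 0 * w 0 ∣ f (fun i => w i.succ) → w 0 = 1) :=
    (ECD.delta_dvd ((DFun.proj 0).mul (DFun.proj 0)) hf.weak).imp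
      (Delta0.eqFun (DFun.proj 0) (DFun.const 1))
  refine ((Delta0.ltFun (DFun.const 0) hf).and (Delta0.ballFun
    (P := fun x v => x * x ∣ f v → x = 1) hf h1)).of_iff fun v => ?_
  constructor
  · intro h
    exact ⟨Nat.pos_of_ne_zero h.ne_zero, fun x _ hx => Nat.isUnit_iff.1 (h x hx)⟩
  · rintro ⟨h0, h⟩ x hx
    refine Nat.isUnit_iff.2 (h x ?_ hx)
    have h2 : x * x ≤ f v := Nat.le_of_dvd h0 hx
    exact (Nat.le_mul_self x).trans h2

private theorem dfun_congr_TopV {n : ℕ} {f g : (Fin n → ℕ) → ℕ} (hf : DFun n f)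
    (h : ∀ v, g v = f v) : DFun n g := by
  have e : g = f := funext h
  rwa [e]

private theorem sval_hom_TopV {r d : ℕ} (c : (Fin r → Fin (d + 1)) → ℕ) {R R' : Type}
    [CommRing R] [CommRing R'] (f : R →+* R') (t : Fin r → R) :
    f (sval c t) = sval c fun i => f (t i) := by
  simp only [sval, map_sum, map_mul, map_prod, map_pow, map_natCast]

/-- the equations -/
private def Q_TopV {n r : ℕ} {κ : Type} {q k q₀ d : ℕ} (S : Sid n r κ q) (E : Fam n r κ k)
    (P : Fin q₀ → (Fin r → Fin (d + 1)) → (Fin n → ℕ) → ℕ)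
    (b : Fin k → (Fin r → Fin (d + 1)) → (Fin n → ℕ) → ℕ) (v : Fin n → ℕ) :
    ∀ (R : Type) [CommRing R], (Fin r ⊕ κ → R) → Fin (q₀ + q + k) → R :=
  fun R _ x => Fin.append
    (Fin.append (fun l => sval (fun e => P l e v) fun i => x (Sum.inl i))
      (S v R (fun i => x (Sum.inl i)) fun i => x (Sum.inr i)))
    (fun i => E v R (fun i => x (Sum.inl i)) (fun i => x (Sum.inr i)) i -
      sval (fun e => b i e v) fun i => x (Sum.inl i))

private theorem q_iff_TopV {n r : ℕ} {κ : Type} {q k q₀ d : ℕ} (S : Sid n r κ q)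
    (E : Fam n r κ k) (P : Fin q₀ → (Fin r → Fin (d + 1)) → (Fin n → ℕ) → ℕ)
    (b : Fin k → (Fin r → Fin (d + 1)) → (Fin n → ℕ) → ℕ) (v : Fin n → ℕ) (R : Type)
    [CommRing R] (x : Fin r ⊕ κ → R) :
    (∀ i, Q_TopV S E P b v R x i = 0) ↔
      (∀ l, sval (fun e => P l e v) (fun i => x (Sum.inl i)) = 0) ∧
      (∀ i, S v R (fun i => x (Sum.inl i)) (fun i => x (Sum.inr i)) i = 0) ∧
      ∀ i, E v R (fun i => x (Sum.inl i)) (fun i => x (Sum.inr i)) i =
        sval (fun e => b i e v) fun i => x (Sum.inl i) := by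
  unfold Q_TopV
  rw [Fin.forall_fin_add]
  simp only [Fin.append_left, Fin.append_right]
  rw [Fin.forall_fin_add]
  simp only [Fin.append_left, Fin.append_right, sub_eq_zero, and_assoc]

private theorem cn_eq_TopV {n r : ℕ} {κ : Type} {q k q₀ d : ℕ} (S : Sid n r κ q)
    (E : Fam n r κ k) (P : Fin q₀ → (Fin r → Fin (d + 1)) → (Fin n → ℕ) → ℕ)
    (b : Fin k → (Fin r → Fin (d + 1)) → (Fin n → ℕ) → ℕ) (v : Fin n → ℕ) (m : ℕ) :
    Nat.card {z : (Fin r → ZMod m) × (κ → ZMod m) //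
        (∀ l, sval (fun e => P l e v) z.1 = 0) ∧ (∀ i, S v (ZMod m) z.1 z.2 i = 0) ∧
          ∀ i, E v (ZMod m) z.1 z.2 i = sval (fun e => b i e v) z.1} =
      Cn (Q_TopV S E P b v) m := by
  refine (Nat.card_congr (Equiv.subtypeEquiv (Equiv.sumArrowEquivProdArrow _ _ _)
    fun x => ?_)).symm
  rw [q_iff_TopV]
  exact Iff.rfl

/-- the local number -/
private theorem cn_prime_TopV {n r : ℕ} {κ : Type} [Finite κ] {q k q₀ d : ℕ} (S : Sid n r κ q)
    (E : Fam n r κ k) (P : Fin q₀ → (Fin r → Fin (d + 1)) → (Fin n → ℕ) → ℕ)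
    (b : Fin k → (Fin r → Fin (d + 1)) → (Fin n → ℕ) → ℕ) (v : Fin n → ℕ)
    (p : ℕ) [Fact p.Prime] [DecidablePred fun t : Fin r → ZMod p =>
      ∀ l, sval (fun e => P l e v) t = 0] :
    Cn (Q_TopV S E P b v) p = ∑ t : Fin r → ZMod p,
      if ∀ l, sval (fun e => P l e v) t = 0 then
        Wn S E p v t (fun i => sval (fun e => b i e v) t) else 0 := by
  rw [← cn_eq_TopV]
  have e : {z : (Fin r → ZMod p) × (κ → ZMod p) //
        (∀ l, sval (fun e => P l e v) z.1 = 0) ∧ (∀ i, S v (ZMod p) z.1 z.2 i = 0) ∧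
          ∀ i, E v (ZMod p) z.1 z.2 i = sval (fun e => b i e v) z.1} ≃
      Σ t : Fin r → ZMod p, {x : κ → ZMod p // (∀ l, sval (fun e => P l e v) t = 0) ∧
        (∀ i, S v (ZMod p) t x i = 0) ∧ ∀ i, E v (ZMod p) t x i = sval (fun e => b i e v) t} :=
    { toFun := fun z => ⟨z.1.1, ⟨z.1.2, z.2⟩⟩
      invFun := fun w => ⟨(w.1, w.2.1), w.2.2⟩
      left_inv := fun _ => rfl
      right_inv := fun _ => rfl }
  rw [Nat.card_congr e, Nat.card_sigma]
  refine Finset.sum_congr rfl fun t _ => ?_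
  by_cases ht : ∀ l, sval (fun e => P l e v) t = 0
  · rw [if_pos ht]
    exact Nat.card_congr (Equiv.subtypeEquivRight fun x => and_iff_right ht)
  · rw [if_neg ht, Nat.card_eq_zero]
    exact Or.inl ⟨fun x => ht x.2.1⟩

private theorem cn_le_TopV {n r : ℕ} {κ : Type} [Finite κ] {q k q₀ d : ℕ} (S : Sid n r κ q)
    (E : Fam n r κ k) (P : Fin q₀ → (Fin r → Fin (d + 1)) → (Fin n → ℕ) → ℕ)
    (b : Fin k → (Fin r → Fin (d + 1)) → (Fin n → ℕ) → ℕ) (v : Fin n → ℕ)
    (p : ℕ) [Fact p.Prime] :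
    Cn (Q_TopV S E P b v) p ≤ p ^ Nat.card (Fin r ⊕ κ) := by
  have h1 : Cn (Q_TopV S E P b v) p ≤ Nat.card (Fin r ⊕ κ → ZMod p) :=
    Nat.card_le_card_of_injective _ Subtype.val_injective
  refine h1.trans (le_of_eq ?_)
  rw [Nat.card_fun, Nat.card_zmod]

open scoped Classical in
theorem top {n r : ℕ} {κ : Type} {q k : ℕ} {S : Sid n r κ q} {G : Gd n} {E : Fam n r κ k}
    (h : Cls n r κ q k S G E) {q₀ d : ℕ} (P : Fin q₀ → (Fin r → Fin (d + 1)) → (Fin n → ℕ) → ℕ)
    (hP : ∀ l e, DFun n (P l e)) (b : Fin k → (Fin r → Fin (d + 1)) → (Fin n → ℕ) → ℕ)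
    (hb : ∀ i e, DFun n (b i e)) (m : (Fin n → ℕ) → ℕ) (hm : DFun n m) :
    DFun n (fun v => if Squarefree (m v) ∧
        ∀ p, p.Prime → p ∣ m v → G v p ∧ Cv p (fun l e => P l e v) then
      Nat.card {z : (Fin r → ZMod (m v)) × (κ → ZMod (m v)) //
        (∀ l, sval (fun e => P l e v) z.1 = 0) ∧ (∀ i, S v (ZMod (m v)) z.1 z.2 i = 0) ∧
          ∀ i, E v (ZMod (m v)) z.1 z.2 i = sval (fun e => b i e v) z.1} else 0) := by
  have hfin : Finite κ := cls_finite h
  obtain ⟨W, ⟨N, hN, hC, hS⟩, hW⟩ := cls_ind h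
  have hS' : SM (κ := Fin r) (fun p _ v t => W p v t fun i => sval (fun e => b i e v) t) := by
    refine (hS.comp (κ' := Fin r) (l := Fin k × (Fin r → Fin (d + 1)))
      (G := Sum.elim
        (fun i K _ (x : Fin r ⊕ (Fin k × (Fin r → Fin (d + 1))) → K) => x (Sum.inl i))
        (fun i K _ (x : Fin r ⊕ (Fin k × (Fin r → Fin (d + 1))) → K) =>
          ∑ e : Fin r → Fin (d + 1), x (Sum.inr (i, e)) * ∏ j, x (Sum.inl j) ^ (e j : ℕ)))
      ?_ (q := fun i _ v => b i.1 i.2 v) fun i => DV.par (hb i.1 i.2)).congr fun p _ v x => ?_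
    · rintro (i | i)
      · exact PRF.var _
      · refine PRF.sum Finset.univ (F := fun (e : Fin r → Fin (d + 1)) (K : Type) [Field K]
          (x : Fin r ⊕ (Fin k × (Fin r → Fin (d + 1))) → K) =>
          x (Sum.inr (i, e)) * ∏ j, x (Sum.inl j) ^ (e j : ℕ)) fun e _ => PRF.mul (PRF.var _) ?_
        exact PRF.prod Finset.univ (F := fun (j : Fin r) (K : Type) [Field K]
          (x : Fin r ⊕ (Fin k × (Fin r → Fin (d + 1))) → K) =>
          x (Sum.inl j) ^ (e j : ℕ)) fun j _ => (PRF.var _).pow _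
    · rfl
  obtain ⟨f, hf, hf'⟩ := sm_curve P hP hS'
  set A : ℕ := Nat.card (Fin r ⊕ κ) with hA
  have h1 : Delta0 (n + 1) (fun w => (w 0).Prime → w 0 ∣ m (fun i => w i.succ) →
      G (fun i => w i.succ) (w 0) ∧ Cv (w 0) fun l e => P l e fun i => w i.succ) :=
    (ECD.delta_prime (DFun.proj 0)).imp ((ECD.delta_dvd (DFun.proj 0) hm.weak).imp
      ((cls_good h).and (CvH.cv_delta (DFun.proj 0) fun l e => (hP l e).weak)))
  have hs : Delta0 n (fun v => Squarefree (m v) ∧
      ∀ p, p.Prime → p ∣ m v → G v p ∧ Cv p (fun l e => P l e v)) := by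
    refine ((sqf_TopV hm).and (Delta0.ballFun (P := fun x v => x.Prime → x ∣ m v →
      G v x ∧ Cv x fun l e => P l e v) hm h1)).of_iff fun v => ?_
    refine and_congr_right fun hs => ?_
    constructor
    · intro h3 p _
      exact h3 p
    · intro h3 p hp hd
      exact h3 p (Nat.le_of_dvd (Nat.pos_of_ne_zero hs.ne_zero) hd) hp hd
  have hm' : DFun n (fun v => if Squarefree (m v) ∧
      (∀ p, p.Prime → p ∣ m v → G v p ∧ Cv p (fun l e => P l e v)) then m v else 1) :=
    DFun.ite hs hm (DFun.const 1)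
  have hg : DFun (n + 1) (fun w => (fun (q : ℕ) (v : Fin n → ℕ) =>
      min (f q v) (q ^ A)) (w 0) (fun i => w i.succ)) :=
    DFun.min hf (PTr.DFun.powConst (DFun.proj 0) A)
  have hbd : ∀ v : Fin n → ℕ, ∏ q ∈ (if Squarefree (m v) ∧
      (∀ p, p.Prime → p ∣ m v → G v p ∧ Cv p (fun l e => P l e v)) then m v else 1).primeFactors,
      min (f q v) (q ^ A) ≤ (if Squarefree (m v) ∧
      (∀ p, p.Prime → p ∣ m v → G v p ∧ Cv p (fun l e => P l e v)) then m v else 1) ^ A := by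
    intro v
    have h0 : (if Squarefree (m v) ∧
        (∀ p, p.Prime → p ∣ m v → G v p ∧ Cv p (fun l e => P l e v)) then m v else 1) ≠ 0 := by
      split_ifs with h1
      · exact h1.1.ne_zero
      · exact one_ne_zero
    calc ∏ q ∈ (if Squarefree (m v) ∧
          (∀ p, p.Prime → p ∣ m v → G v p ∧ Cv p (fun l e => P l e v)) then
            m v else 1).primeFactors, min (f q v) (q ^ A)
        ≤ ∏ q ∈ (if Squarefree (m v) ∧
          (∀ p, p.Prime → p ∣ m v → G v p ∧ Cv p (fun l e => P l e v)) then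
            m v else 1).primeFactors, q ^ A :=
          Finset.prod_le_prod' fun q _ => min_le_right _ _
      _ = (∏ q ∈ (if Squarefree (m v) ∧
          (∀ p, p.Prime → p ∣ m v → G v p ∧ Cv p (fun l e => P l e v)) then
            m v else 1).primeFactors, q) ^ A := Finset.prod_pow _ _ _
      _ ≤ (if Squarefree (m v) ∧
          (∀ p, p.Prime → p ∣ m v → G v p ∧ Cv p (fun l e => P l e v)) then
            m v else 1) ^ A :=
          Nat.pow_le_pow_left (Nat.le_of_dvd (Nat.pos_of_ne_zero h0)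
            (Nat.prod_primeFactors_dvd _)) A
  have h2 := PtC.dfun_prodPF (n := n) (m := fun v => if Squarefree (m v) ∧
      (∀ p, p.Prime → p ∣ m v → G v p ∧ Cv p (fun l e => P l e v)) then m v else 1)
    (B := fun v => (if Squarefree (m v) ∧
      (∀ p, p.Prime → p ∣ m v → G v p ∧ Cv p (fun l e => P l e v)) then m v else 1) ^ A) hg hm'
    (PTr.DFun.powConst hm' A) hbd
  have h3 := DFun.ite hs h2 (DFun.const 0)
  refine dfun_congr_TopV h3 fun v => ?_
  by_cases hv : Squarefree (m v) ∧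
      ∀ p, p.Prime → p ∣ m v → G v p ∧ Cv p (fun l e => P l e v)
  · rw [if_pos hv, if_pos hv, if_pos hv, cn_eq_TopV, crt (Q_TopV S E P b v) ?_ hv.1]
    · refine Finset.prod_congr rfl fun q hq => ?_
      have hqp : q.Prime := Nat.prime_of_mem_primeFactors hq
      have : Fact q.Prime := ⟨hqp⟩
      obtain ⟨hG, hCv⟩ := hv.2 q hqp (Nat.dvd_of_mem_primeFactors hq)
      have h4 : f q v = Cn (Q_TopV S E P b v) q := by
        rw [hf' q v hCv, cn_prime_TopV]
        refine Finset.sum_congr rfl fun t _ => if_congr Iff.rfl ?_ rfl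
        exact (hW q v hG t _).symm
      rw [h4]
      exact (min_eq_left (cn_le_TopV S E P b v q)).symm
    · intro R T _ _ g x i
      unfold Q_TopV
      refine Fin.addCases (fun i => ?_) (fun i => ?_) i
      · rw [Fin.append_left, Fin.append_left]
        refine Fin.addCases (fun i => ?_) (fun i => ?_) i
        · rw [Fin.append_left, Fin.append_left, sval_hom_TopV]
        · rw [Fin.append_right, Fin.append_right, cls_hom_S h]
      · rw [Fin.append_right, Fin.append_right, map_sub, cls_hom_E h, sval_hom_TopV]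
  · rw [if_neg hv, if_neg hv]

end Pool.Agent.IsoV
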