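import Pool.Agent.IsoV.Defs

/-!
# Functions of several classes

`cv_rep`, `cv_sum`: a function constant on the classes in every coordinate is determined by its
values at the representatives; `iv_op`: sums over the `u` with `A(u', u)`.
-/

set_option autoImplicit false

noncomputable section

namespace Pool.Agent.IsoV

open Finset Polynomial Pool.Agent.PRc Pool.Agent.Grz Pool.Agent.CvS Pool.Agent.IsoC

variable {n r k k' : ℕ}

theorem IV.congr {W W' : WV n r k} (h : IV W) (e : ∀ (p : ℕ) [Fact p.Prime] (v : Fin n → ℕ)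
    (t : Fin r → ZMod p) (u : Fin k → ZMod p), W p v t u = W' p v t u) : IV W' := by
  have e : W = W' := by
    funext p _ v t u
    exact e p v t u
  rwa [← e]

theorem CV.mono {K : Type} [Field K] {N N' : ℕ} {Ψ : (Fin k → K) → ℕ} (h : CV N Ψ) (hN : N ∣ N') :
    CV N' Ψ := by
  obtain ⟨a, rfl⟩ := hN
  intro z ζ hζ
  have h1 := h z (fun i => ζ i ^ a) fun i => pow_ne_zero a (hζ i)
  have e : (fun i => z i * (ζ i ^ a) ^ N) = fun i => z i * ζ i ^ (N * a) := by
    funext i
    rw [← pow_mul, mul_comm a N]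
  rwa [e] at h1

theorem cv_rep {K : Type} [Field K] {N : ℕ} (hN : 0 < N) {g : K} {Ψ : (Fin k → K) → ℕ}
    (hΨ : CV N Ψ) {l : Fin k → Fin (N + 1)} {z : Fin k → K} (h : ∀ i, Cl N (l i) K ![z i, g]) :
    Ψ z = Ψ (fun i => rp (l i) g) := by
  choose y hy e using fun i => cl_rep hN (h i)
  rw [← hΨ (fun i => rp (l i) g) y hy]
  congr 1
  funext i
  exact e i

open scoped Classical in
theorem cv_sum {K : Type} [Field K] {N : ℕ} (hN : 0 < N) {g : K} (hg : Gen N g)
    {Ψ : (Fin k → K) → ℕ} (hΨ : CV N Ψ) (z : Fin k → K) : Ψ z = ∑ l : Fin k → Fin (N + 1),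
      if ∀ i, Cl N (l i) K ![z i, g] then Ψ (fun i => rp (l i) g) else 0 := by
  choose l hl hu using fun i => cl_ex hN hg (z i)
  rw [Finset.sum_eq_single l, if_pos hl]
  · exact cv_rep hN hΨ hl
  · intro l' _ h
    refine if_neg fun h1 => h ?_
    funext i
    exact hu i (l' i) (h1 i)
  · intro h
    exact absurd (Finset.mem_univ _) h

/-- the values at representatives -/
theorem sv_rep {W : WV n r k} (h : SM (κ := Fin r ⊕ Fin k)
      (fun p _ v x => W p v (fun i => x (Sum.inl i)) (fun i => x (Sum.inr i)))) {N : ℕ}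
    (l : Fin k → Fin (N + 1)) {g : ℕ → (Fin n → ℕ) → ℕ} (hg : DV g) {κ : Type} (t : Fin r → κ) :
    SM (κ := κ) (fun p _ v x => W p v (fun i => x (t i)) (fun i => rp (l i) (g p v : ZMod p))) := by
  refine (h.comp (κ' := κ) (l := Unit) (q := fun _ => g)
    (G := Sum.elim (fun i K _ x => x (Sum.inl (t i))) fun i K _ x => rp (l i) (x (Sum.inr ())))
    (fun j => ?_) fun _ => hg).congr fun p _ v x => rfl
  rcases j with j | j
  · exact PRF.var _
  · exact rp_prf (l j) (PRF.var _)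

/-- a function constant on the classes is simple if its values at the representatives are -/
theorem sv_of_rep {W : WV n r k} {N : ℕ} (hN : 0 < N)
    (hC : ∀ (p : ℕ) [Fact p.Prime] (v : Fin n → ℕ) (t : Fin r → ZMod p), CV N (W p v t)) {g : ℕ → ℕ}
    (hg : DFun 1 (fun w => g (w 0))) (hG : ∀ (p : ℕ) [Fact p.Prime], Gen N (g p : ZMod p))
    (h : ∀ l : Fin k → Fin (N + 1), SM (κ := Fin r)
      (fun p _ v x => W p v x (fun i => rp (l i) (g p : ZMod p)))) :
    SM (κ := Fin r ⊕ Fin k)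
      (fun p _ v x => W p v (fun i => x (Sum.inl i)) (fun i => x (Sum.inr i))) := by
  classical
  have h1 : ∀ l : Fin k → Fin (N + 1), PRQ (fun K _ (x : (Fin r ⊕ Fin k) ⊕ Unit → K) =>
      ∀ i, Cl N (l i) K ![x (Sum.inl (Sum.inr i)), x (Sum.inr ())]) := by
    intro l
    refine PRQ.allF (P := fun (i : Fin k) (K : Type) [Field K] (x : (Fin r ⊕ Fin k) ⊕ Unit → K) =>
      Cl N (l i) K ![x (Sum.inl (Sum.inr i)), x (Sum.inr ())]) fun i => ?_
    refine ((cl_prq N (l i)).comp (G := ![fun K _ (x : (Fin r ⊕ Fin k) ⊕ Unit → K) =>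
      x (Sum.inl (Sum.inr i)), fun K _ (x : (Fin r ⊕ Fin k) ⊕ Unit → K) =>
        x (Sum.inr ())]) (fun j => ?_)).congr fun K _ x => ?_
    · fin_cases j
      · exact PRF.var _
      · exact PRF.var _
    · refine iff_of_eq (congrArg (Cl N (l i) K) ?_)
      funext j
      fin_cases j <;> rfl
  have h2 : ∀ l : Fin k → Fin (N + 1), SM (κ := Fin r ⊕ Fin k)
      (fun p _ v x => W p v (fun i => x (Sum.inl i)) (fun i => rp (l i) (g p : ZMod p))) := by
    intro l
    exact (h l).comp (κ' := Fin r ⊕ Fin k) (l := Empty) (q := fun i => i.elim)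
      (G := fun i K _ x => x (Sum.inl (Sum.inl i))) (fun i => PRF.var _) fun i => i.elim
  refine (SM.sum Finset.univ fun l => SM.ite (h1 l) (q := fun _ : Unit => fun p _ => g p)
    (fun _ => DV.one hg) (h2 l) (SM.const (DV.const 0))).congr fun p _ v x => ?_
  have h5 := (cv_sum hN (hG p) (hC p v fun i => x (Sum.inl i)) fun i => x (Sum.inr i)).symm
  simp only [Sum.elim_inl, Sum.elim_inr]
  convert h5

/-- finite sums of products of functions of `t` and definable functions -/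
theorem iv_const {f : ℕ → (Fin n → ℕ) → ℕ} (hf : DV f) :
    IV (n := n) (r := r) (k := k) (fun p _ v _ _ => f p v) :=
  ⟨1, one_pos, fun _ _ _ _ _ _ _ => rfl, SM.const hf⟩

open scoped Classical in
/-- sums over the `u` with `A(u', u)` -/
theorem iv_op {W : WV n r k} (h : IV W)
    (A : ∀ (p : ℕ) [Fact p.Prime], (Fin n → ℕ) → (Fin k' → ZMod p) → (Fin k → ZMod p) → Prop)
    (hA : ∀ N : ℕ, 0 < N → ∃ N' : ℕ, 0 < N' ∧
      (∀ (p : ℕ) [Fact p.Prime] (v : Fin n → ℕ) (ζ : Fin k' → ZMod p), (∀ i, ζ i ≠ 0) →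
        ∃ η : Fin k → ZMod p, (∀ j, η j ≠ 0) ∧ ∀ (u' : Fin k' → ZMod p) (u : Fin k → ZMod p),
          A p v (fun i => u' i * ζ i ^ N') (fun j => u j * η j ^ N) ↔ A p v u' u) ∧
      ∀ g g' : ℕ → ℕ, DFun 1 (fun w => g (w 0)) → DFun 1 (fun w => g' (w 0)) →
        (∀ (p : ℕ) [Fact p.Prime], Gen N (g p : ZMod p)) →
        (∀ (p : ℕ) [Fact p.Prime], Gen N' (g' p : ZMod p)) →
        ∀ (l : Fin k → Fin (N + 1)) (l' : Fin k' → Fin (N' + 1)),
          ∃ f : ℕ → (Fin n → ℕ) → ℕ, DV f ∧ ∀ (p : ℕ) [Fact p.Prime] (v : Fin n → ℕ), f p v =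
            Nat.card {u : Fin k → ZMod p // A p v (fun i => rp (l' i) (g' p : ZMod p)) u ∧
              ∀ j, Cl N (l j) (ZMod p) ![u j, (g p : ZMod p)]}) :
    IV (fun p _ v t u' => ∑ u : Fin k → ZMod p, if A p v u' u then W p v t u else 0) := by
  obtain ⟨N, hN, hC, hS⟩ := h
  obtain ⟨N', hN', hE, hD⟩ := hA N hN
  obtain ⟨g, hg, hG⟩ := gen_def N hN
  obtain ⟨g', hg', hG'⟩ := gen_def N' hN'
  choose f hf hf' using hD g g' hg hg' hG hG'
  have hCC : ∀ (p : ℕ) [Fact p.Prime] (v : Fin n → ℕ) (t : Fin r → ZMod p),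
      CV N' (fun u' => ∑ u : Fin k → ZMod p, if A p v u' u then W p v t u else 0) := by
    intro p _ v t z ζ hζ
    obtain ⟨η, hη, h1⟩ := hE p v ζ hζ
    beta_reduce
    rw [← Equiv.sum_comp (Equiv.piCongrRight fun j => Equiv.mulRight₀ (η j ^ N)
      (pow_ne_zero N (hη j))) fun u => if A p v (fun i => z i * ζ i ^ N') u then W p v t u else 0]
    refine Finset.sum_congr rfl fun u _ => ?_
    have e : (Equiv.piCongrRight fun j => Equiv.mulRight₀ (η j ^ N) (pow_ne_zero N (hη j))) u =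
        fun j => u j * η j ^ N := rfl
    rw [e, hC p v t u η hη]
    exact if_congr (h1 z u) rfl rfl
  refine ⟨N', hN', hCC, sv_of_rep hN' hCC hg' hG' fun l' => ?_⟩
  refine (SM.sum Finset.univ fun l : Fin k → Fin (N + 1) =>
    (sv_rep hS l (DV.one hg) (fun i : Fin r => i)).mul (SM.const (hf l l'))).congr
      fun p _ v x => ?_
  have h2 : ∀ u : Fin k → ZMod p, (if A p v (fun i => rp (l' i) (g' p : ZMod p)) u then
      W p v x u else 0) = ∑ l : Fin k → Fin (N + 1), W p v x (fun i => rp (l i) (g p : ZMod p)) *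
        if A p v (fun i => rp (l' i) (g' p : ZMod p)) u ∧
          ∀ j, Cl N (l j) (ZMod p) ![u j, (g p : ZMod p)] then 1 else 0 := by
    intro u
    rw [cv_sum hN (hG p) (hC p v x) u]
    by_cases h3 : A p v (fun i => rp (l' i) (g' p : ZMod p)) u
    · rw [if_pos h3]
      refine Finset.sum_congr rfl fun l _ => ?_
      by_cases h4 : ∀ j, Cl N (l j) (ZMod p) ![u j, (g p : ZMod p)]
      · rw [if_pos h4, if_pos ⟨h3, h4⟩, mul_one]
      · rw [if_neg h4, if_neg fun h5 => h4 h5.2, mul_zero]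
    · rw [if_neg h3]
      symm
      refine Finset.sum_eq_zero fun l _ => ?_
      rw [if_neg fun h5 => h3 h5.1, mul_zero]
  simp only [h2]
  rw [Finset.sum_comm]
  refine Finset.sum_congr rfl fun l _ => ?_
  rw [← Finset.mul_sum, hf', Nat.card_eq_fintype_card, Fintype.card_subtype, Finset.card_filter]

end Pool.Agent.IsoV
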